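import Mathlib

set_option autoImplicit false

namespace Pool.Agent.Results.MP_31abb5_co.SecondOrder

open Finset

/-- `s` is a frustrated triangle of `G`: it has three vertices and contains an odd number of
edges of `G`. -/
def IsFrustrated {V : Type} (G : SimpleGraph V) (s : Finset V) : Prop :=
  s.card = 3 ∧ Odd ({e ∈ G.edgeSet | ∀ v ∈ e, v ∈ s}.ncard)

/-- The number of frustrated triangles of `G`. -/
noncomputable def frustratedCount {V : Type} (G : SimpleGraph V) : ℕ :=
  {s : Finset V | IsFrustrated G s}.ncard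

open Classical in
/-- Adjacency indicator. -/
noncomputable def ad {V : Type} (G : SimpleGraph V) (u v : V) : ℤ := if G.Adj u v then 1 else 0

/-- Parity indicator of a triple. -/
noncomputable def t3 {V : Type} (G : SimpleGraph V) (u v w : V) : ℤ :=
  ad G u v + ad G v w + ad G u w
    - 2 * (ad G u v * ad G v w + ad G v w * ad G u w + ad G u v * ad G u w)
    + 4 * (ad G u v * ad G v w * ad G u w)

section basics
variable {V : Type} (G : SimpleGraph V)

lemma ad_symm (u v : V) : ad G u v = ad G v u := by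
  unfold ad
  by_cases h : G.Adj u v
  · simp [h, h.symm]
  · have h' : ¬ G.Adj v u := fun h' => h h'.symm
    simp [h, h']

lemma ad_self (u : V) : ad G u u = 0 := by
  unfold ad; simp

lemma ad_zero_or (u v : V) : ad G u v = 0 ∨ ad G u v = 1 := by
  unfold ad; split_ifs <;> simp

lemma ad_nonneg (u v : V) : 0 ≤ ad G u v := by
  rcases ad_zero_or G u v with h | h <;> omega

lemma ad_le_one (u v : V) : ad G u v ≤ 1 := by
  rcases ad_zero_or G u v with h | h <;> omega

lemma ad_sq (u v : V) : ad G u v * ad G u v = ad G u v := by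
  rcases ad_zero_or G u v with h | h <;> simp [h]

lemma t3_zero_or (u v w : V) : t3 G u v w = 0 ∨ t3 G u v w = 1 := by
  unfold t3
  rcases ad_zero_or G u v with h | h <;> rcases ad_zero_or G v w with h' | h' <;>
    rcases ad_zero_or G u w with h'' | h'' <;> simp [h, h', h'']

lemma t3_self (u w : V) : t3 G u u w = 0 := by
  unfold t3
  rw [ad_self]
  have := ad_sq G u w
  linarith

lemma t3_self' (u w : V) : t3 G u w w = 0 := by
  unfold t3
  rw [ad_self]
  have := ad_sq G u w
  linarith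

lemma t3_self'' (u w : V) : t3 G u w u = 0 := by
  unfold t3
  rw [ad_self, ad_symm G w u]
  have := ad_sq G u w
  linarith

lemma t3_swap (u v w : V) : t3 G u v w = t3 G v u w := by
  unfold t3; rw [ad_symm G v u]; ring

lemma t3_rot (u v w : V) : t3 G u v w = t3 G v w u := by
  unfold t3; rw [ad_symm G w u, ad_symm G v u]; ring

/-- Cocycle identity. -/
lemma t3_cocycle (x u v w : V) :
    t3 G x u v + t3 G x v w + t3 G x u w
    - 2 * (t3 G x u v * t3 G x v w + t3 G x v w * t3 G x u w + t3 G x u v * t3 G x u w)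
    + 4 * (t3 G x u v * t3 G x v w * t3 G x u w) = t3 G u v w := by
  unfold t3
  rcases ad_zero_or G x u with h | h <;> rcases ad_zero_or G x v with h' | h' <;>
    rcases ad_zero_or G x w with h'' | h'' <;> rcases ad_zero_or G u v with k | k <;>
    rcases ad_zero_or G v w with k' | k' <;> rcases ad_zero_or G u w with k'' | k'' <;>
    simp [h, h', h'', k, k', k'']

lemma odd_iff [DecidableEq V] (x y z : V) (hxy : x ≠ y) (hxz : x ≠ z) (hyz : y ≠ z) :
    Odd ({e ∈ G.edgeSet | ∀ v ∈ e, v ∈ ({x, y, z} : Finset V)}.ncard) ↔ t3 G x y z = 1 := by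
  classical
  have hset : {e ∈ G.edgeSet | ∀ v ∈ e, v ∈ ({x, y, z} : Finset V)} =
      ↑((({s(x, y), s(y, z), s(x, z)} : Finset (Sym2 V))).filter (fun e => e ∈ G.edgeSet)) := by
    ext e
    induction e using Sym2.ind with
    | _ p q =>
      simp only [Set.mem_ofPred_eq, Finset.coe_filter, Finset.mem_insert, Finset.mem_singleton,
        Sym2.mem_iff, SimpleGraph.mem_edgeSet]
      constructor
      · rintro ⟨hadj, hmem⟩
        have hp := hmem p (Or.inl rfl)
        have hq := hmem q (Or.inr rfl)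
        have hpq := hadj.ne
        refine ⟨?_, hadj⟩
        rcases hp with rfl | rfl | rfl <;> rcases hq with rfl | rfl | rfl <;>
          simp_all [Sym2.eq_swap]
      · rintro ⟨h, hadj⟩
        refine ⟨hadj, ?_⟩
        simp only [Sym2.eq_iff] at h
        rintro v (rfl | rfl) <;> rcases h with (⟨rfl, rfl⟩ | ⟨rfl, rfl⟩) |
          (⟨rfl, rfl⟩ | ⟨rfl, rfl⟩) | (⟨rfl, rfl⟩ | ⟨rfl, rfl⟩) <;> simp
  rw [hset, Set.ncard_coe_finset]
  have n1 : s(x, y) ≠ s(y, z) := by
    intro h; rw [Sym2.eq_iff] at h; rcases h with ⟨h, _⟩ | ⟨h, _⟩ <;> contradiction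
  have n2 : s(x, y) ≠ s(x, z) := by
    intro h; rw [Sym2.eq_iff] at h; rcases h with ⟨_, h⟩ | ⟨h, _⟩ <;> contradiction
  have n3 : s(y, z) ≠ s(x, z) := by
    intro h; rw [Sym2.eq_iff] at h
    rcases h with ⟨h, _⟩ | ⟨h, _⟩
    · exact hxy h.symm
    · exact hyz h
  unfold t3 ad
  by_cases h1 : G.Adj x y <;> by_cases h2 : G.Adj y z <;> by_cases h3 : G.Adj x z <;>
    simp [Finset.filter_insert, Finset.filter_singleton, h1, h2, h3, n1, n2, n3,
      Nat.odd_iff]

end basics

section counts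
variable {V : Type} [Fintype V] (G : SimpleGraph V)

/-- Six times the number of frustrated triangles. -/
noncomputable def T6 : ℤ := ∑ u, ∑ v, ∑ w, t3 G u v w

/-- Twice the number of edges. -/
noncomputable def E2 : ℤ := ∑ u, ∑ v, ad G u v

/-- Degree. -/
noncomputable def dg (u : V) : ℤ := ∑ v, ad G u v

noncomputable def S2 : ℤ := ∑ u, dg G u ^ 2

noncomputable def Tr : ℤ := ∑ u, ∑ v, ∑ w, ad G u v * ad G v w * ad G u w

lemma T6_eq_count : T6 G = 6 * (frustratedCount G : ℤ) := by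
  classical
  set F : Finset (Finset V) := Finset.univ.filter (fun s => IsFrustrated G s) with hF
  have hcount : frustratedCount G = F.card := by
    unfold frustratedCount
    rw [← Set.ncard_coe_finset]
    congr 1
    ext s
    simp [hF]
  set O : Finset (V × V × V) := Finset.univ.filter (fun p => t3 G p.1 p.2.1 p.2.2 = 1) with hO
  have hT : T6 G = O.card := by
    unfold T6
    rw [hO, Finset.card_filter]
    push_cast
    rw [Fintype.sum_prod_type]
    refine Finset.sum_congr rfl fun u _ => ?_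
    rw [Fintype.sum_prod_type]
    refine Finset.sum_congr rfl fun v _ => ?_
    refine Finset.sum_congr rfl fun w _ => ?_
    rcases t3_zero_or G u v w with h | h <;> simp [h]
  have hmap : ∀ p ∈ O, ({p.1, p.2.1, p.2.2} : Finset V) ∈ F := by
    rintro ⟨u, v, w⟩ hp
    simp only [hO, Finset.mem_filter, Finset.mem_univ, true_and] at hp
    have huv : u ≠ v := by
      rintro rfl; rw [t3_self] at hp; exact absurd hp (by norm_num)
    have hvw : v ≠ w := by
      rintro rfl; rw [t3_self'] at hp; exact absurd hp (by norm_num)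
    have huw : u ≠ w := by
      rintro rfl; rw [t3_self''] at hp; exact absurd hp (by norm_num)
    rw [hF, Finset.mem_filter]
    refine ⟨Finset.mem_univ _, ?_⟩
    refine ⟨Finset.card_eq_three.mpr ⟨u, v, w, huv, huw, hvw, rfl⟩, ?_⟩
    rw [odd_iff G u v w huv huw hvw]
    exact hp
  have hfib : ∀ s ∈ F, (O.filter (fun p => ({p.1, p.2.1, p.2.2} : Finset V) = s)).card = 6 := by
    intro s hs
    rw [hF, Finset.mem_filter] at hs
    obtain ⟨_, hs3, hodd⟩ := hs
    obtain ⟨x, y, z, hxy, hxz, hyz, rfl⟩ := Finset.card_eq_three.mp hs3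
    rw [odd_iff G x y z hxy hxz hyz] at hodd
    have hodd1 : t3 G x z y = 1 := by
      rw [t3_rot G x z y, t3_swap G z y x, ← t3_rot G x y z]; exact hodd
    have hodd2 : t3 G y x z = 1 := by rw [← hodd, t3_swap]
    have hodd3 : t3 G y z x = 1 := by rw [← hodd, t3_rot G x y z]
    have hodd4 : t3 G z x y = 1 := by rw [← hodd, t3_rot G x y z, t3_rot G y z x]
    have hodd5 : t3 G z y x = 1 := by rw [← hodd3, t3_swap]
    have : O.filter (fun p => ({p.1, p.2.1, p.2.2} : Finset V) = {x, y, z}) =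
        {(x, y, z), (x, z, y), (y, x, z), (y, z, x), (z, x, y), (z, y, x)} := by
      ext ⟨u, v, w⟩
      simp only [hO, Finset.mem_filter, Finset.mem_univ, true_and, Finset.mem_insert,
        Finset.mem_singleton, Prod.mk.injEq]
      constructor
      · rintro ⟨h1, h2⟩
        have huv : u ≠ v := by
          rintro rfl; rw [t3_self] at h1; exact absurd h1 (by norm_num)
        have hvw : v ≠ w := by
          rintro rfl; rw [t3_self'] at h1; exact absurd h1 (by norm_num)
        have huw : u ≠ w := by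
          rintro rfl; rw [t3_self''] at h1; exact absurd h1 (by norm_num)
        have hu : u ∈ ({x, y, z} : Finset V) := by rw [← h2]; simp
        have hv : v ∈ ({x, y, z} : Finset V) := by rw [← h2]; simp
        have hw : w ∈ ({x, y, z} : Finset V) := by rw [← h2]; simp
        simp only [Finset.mem_insert, Finset.mem_singleton] at hu hv hw
        rcases hu with rfl | rfl | rfl <;> rcases hv with rfl | rfl | rfl <;>
          rcases hw with rfl | rfl | rfl <;> first | contradiction | simp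
      · rintro (⟨rfl, rfl, rfl⟩ | ⟨rfl, rfl, rfl⟩ | ⟨rfl, rfl, rfl⟩ | ⟨rfl, rfl, rfl⟩ |
          ⟨rfl, rfl, rfl⟩ | ⟨rfl, rfl, rfl⟩)
        · exact ⟨hodd, rfl⟩
        · refine ⟨hodd1, ?_⟩; ext t; simp; tauto
        · refine ⟨hodd2, ?_⟩; ext t; simp; tauto
        · refine ⟨hodd3, ?_⟩; ext t; simp; tauto
        · refine ⟨hodd4, ?_⟩; ext t; simp; tauto
        · refine ⟨hodd5, ?_⟩; ext t; simp; tauto
    rw [this]
    rw [Finset.card_insert_of_notMem, Finset.card_insert_of_notMem, Finset.card_insert_of_notMem,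
      Finset.card_insert_of_notMem, Finset.card_insert_of_notMem, Finset.card_singleton]
    all_goals simp [hxy, hxz, hyz, hxy.symm, hxz.symm, hyz.symm]
  rw [hT, hcount, Finset.card_eq_sum_card_fiberwise hmap, Finset.sum_congr rfl hfib]
  simp [Finset.sum_const]
  ring

lemma T6_formula : T6 G = 3 * (Fintype.card V : ℤ) * E2 G - 6 * S2 G + 4 * Tr G := by
  have h1 : ∑ u, ∑ v, ∑ _w : V, ad G u v = (Fintype.card V : ℤ) * E2 G := by
    simp only [Finset.sum_const, Finset.card_univ, nsmul_eq_mul, E2, Finset.mul_sum]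
  have h2 : ∑ u : V, ∑ v, ∑ w, ad G v w = (Fintype.card V : ℤ) * E2 G := by
    simp only [Finset.sum_const, Finset.card_univ, nsmul_eq_mul, E2]
  have h3 : ∑ u, ∑ _v : V, ∑ w, ad G u w = (Fintype.card V : ℤ) * E2 G := by
    simp only [Finset.sum_const, Finset.card_univ, nsmul_eq_mul, E2, Finset.mul_sum]
  have h4 : ∑ u, ∑ v, ∑ w, ad G u v * ad G v w = S2 G := by
    unfold S2 dg
    rw [Finset.sum_comm]
    refine Finset.sum_congr rfl fun v _ => ?_
    rw [sq, Finset.sum_mul_sum]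
    refine Finset.sum_congr rfl fun u _ => Finset.sum_congr rfl fun w _ => ?_
    rw [ad_symm G u v]
  have h5 : ∑ u, ∑ v, ∑ w, ad G v w * ad G u w = S2 G := by
    unfold S2 dg
    have : ∑ u, ∑ v, ∑ w, ad G v w * ad G u w = ∑ w, ∑ u, ∑ v, ad G v w * ad G u w := by
      rw [Finset.sum_comm' (s := Finset.univ) (t := fun _ => Finset.univ) (t' := Finset.univ)
        (s' := fun _ => Finset.univ) (by simp)]
      rw [Finset.sum_congr rfl fun v _ => Finset.sum_comm]
      rw [Finset.sum_comm]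
      refine Finset.sum_congr rfl fun w _ => ?_
      rw [Finset.sum_comm]
    rw [this]
    refine Finset.sum_congr rfl fun w _ => ?_
    rw [sq, Finset.sum_mul_sum]
    refine Finset.sum_congr rfl fun u _ => Finset.sum_congr rfl fun v _ => ?_
    rw [ad_symm G w u, ad_symm G w v]; ring
  have h6 : ∑ u, ∑ v, ∑ w, ad G u v * ad G u w = S2 G := by
    unfold S2 dg
    refine Finset.sum_congr rfl fun u _ => ?_
    rw [sq, Finset.sum_mul_sum]
  unfold T6 t3 Tr
  simp only [mul_add, Finset.sum_add_distrib, Finset.sum_sub_distrib,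
    ← Finset.mul_sum _ _ (2 : ℤ), ← Finset.mul_sum _ _ (4 : ℤ)]
  rw [h1, h2, h3, h4, h5, h6]
  ring

lemma dg_nonneg (u : V) : 0 ≤ dg G u := Finset.sum_nonneg fun v _ => ad_nonneg G u v

lemma E2_eq : E2 G = ∑ u, dg G u := rfl

lemma S2_ge : E2 G + Tr G ≤ S2 G := by
  -- sum over u v of ad u v * (dg u - 1 - codegree) is nonnegative
  have h : ∀ u v, 0 ≤ ad G u v * (dg G u - 1 - ∑ w, ad G v w * ad G u w) := by
    intro u v
    rcases ad_zero_or G u v with h0 | h1
    · rw [h0]; simp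
    · rw [h1, one_mul]
      classical
      have hd : dg G u = ad G u v + ∑ w ∈ Finset.univ.erase v, ad G u w := by
        unfold dg
        rw [← Finset.add_sum_erase _ _ (Finset.mem_univ v)]
      have hc : ∑ w, ad G v w * ad G u w = ∑ w ∈ Finset.univ.erase v, ad G v w * ad G u w := by
        rw [← Finset.add_sum_erase _ _ (Finset.mem_univ v), ad_self]; simp
      rw [hd, hc, h1]
      have : ∑ w ∈ Finset.univ.erase v, ad G v w * ad G u w ≤
          ∑ w ∈ Finset.univ.erase v, ad G u w := by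
        apply Finset.sum_le_sum
        intro w _
        have := ad_le_one G v w
        have := ad_nonneg G u w
        nlinarith
      linarith
  have h2 : 0 ≤ ∑ u, ∑ v, ad G u v * (dg G u - 1 - ∑ w, ad G v w * ad G u w) :=
    Finset.sum_nonneg fun u _ => Finset.sum_nonneg fun v _ => h u v
  have h3 : ∑ u, ∑ v, ad G u v * (dg G u - 1 - ∑ w, ad G v w * ad G u w) =
      S2 G - E2 G - Tr G := by
    simp only [mul_sub, Finset.sum_sub_distrib, mul_one, Finset.mul_sum, ← mul_assoc]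
    unfold S2 Tr E2
    congr 2
    refine Finset.sum_congr rfl fun u _ => ?_
    rw [← Finset.sum_mul, sq]
    rfl
  linarith

lemma Tr_nonneg : 0 ≤ Tr G :=
  Finset.sum_nonneg fun u _ => Finset.sum_nonneg fun v _ => Finset.sum_nonneg fun w _ =>
    mul_nonneg (mul_nonneg (ad_nonneg G u v) (ad_nonneg G v w)) (ad_nonneg G u w)

/-- `d u + d v ≤ m + 1` for adjacent vertices. -/
lemma dg_add_le (u v : V) (h : G.Adj u v) : 2 * (dg G u + dg G v) ≤ E2 G + 2 := by
  classical
  have huv : u ≠ v := h.ne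
  have h1 : ad G u v = 1 := by unfold ad; simp [h]
  -- ordered pairs (x, y) with x ∈ {u, v} or y ∈ {u, v}
  have hrow : E2 G = dg G u + dg G v + ∑ x ∈ (Finset.univ.erase u).erase v, dg G x := by
    rw [E2_eq, ← Finset.add_sum_erase _ _ (Finset.mem_univ u),
      ← Finset.add_sum_erase _ _ (Finset.mem_erase.mpr ⟨huv.symm, Finset.mem_univ v⟩)]
    ring
  have hx : ∀ x, ad G x u + ad G x v ≤ dg G x := by
    intro x
    unfold dg
    rw [← Finset.add_sum_erase _ _ (Finset.mem_univ u),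
      ← Finset.add_sum_erase _ _ (Finset.mem_erase.mpr ⟨huv.symm, Finset.mem_univ v⟩)]
    have : 0 ≤ ∑ w ∈ (Finset.univ.erase u).erase v, ad G x w :=
      Finset.sum_nonneg fun w _ => ad_nonneg G x w
    linarith
  have hs : ∑ x ∈ (Finset.univ.erase u).erase v, (ad G x u + ad G x v) ≤
      ∑ x ∈ (Finset.univ.erase u).erase v, dg G x := Finset.sum_le_sum fun x _ => hx x
  have hu : dg G u = ad G u u + ad G v u + ∑ x ∈ (Finset.univ.erase u).erase v, ad G x u := by
    unfold dg
    rw [← Finset.add_sum_erase _ _ (Finset.mem_univ u),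
      ← Finset.add_sum_erase _ _ (Finset.mem_erase.mpr ⟨huv.symm, Finset.mem_univ v⟩),
      ad_symm G v u]
    rw [← add_assoc]
    congr 1
    exact Finset.sum_congr rfl fun x _ => ad_symm G u x
  have hv : dg G v = ad G u v + ad G v v + ∑ x ∈ (Finset.univ.erase u).erase v, ad G x v := by
    unfold dg
    rw [← Finset.add_sum_erase _ _ (Finset.mem_univ u),
      ← Finset.add_sum_erase _ _ (Finset.mem_erase.mpr ⟨huv.symm, Finset.mem_univ v⟩),
      ad_symm G v u]
    rw [← add_assoc]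
    congr 1
    exact Finset.sum_congr rfl fun x _ => ad_symm G v x
  rw [Finset.sum_add_distrib] at hs
  rw [ad_self, ad_symm G v u, h1] at hu
  rw [ad_self, h1] at hv
  linarith

lemma S2_le : 4 * S2 G ≤ E2 G ^ 2 + 2 * E2 G := by
  have h1 : 2 * S2 G = ∑ u, ∑ v, ad G u v * (dg G u + dg G v) := by
    have e1 : ∑ u, ∑ v, ad G u v * dg G u = S2 G := by
      unfold S2
      refine Finset.sum_congr rfl fun u _ => ?_
      rw [← Finset.sum_mul, sq]; rfl
    have e2 : ∑ u, ∑ v, ad G u v * dg G v = S2 G := by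
      rw [Finset.sum_comm]
      unfold S2
      refine Finset.sum_congr rfl fun v _ => ?_
      rw [← Finset.sum_mul, sq]
      congr 1
      unfold dg
      exact Finset.sum_congr rfl fun u _ => ad_symm G u v
    simp only [mul_add, Finset.sum_add_distrib]
    rw [e1, e2]; ring
  have h2 : ∑ u, ∑ v, ad G u v * (2 * (dg G u + dg G v)) ≤ ∑ u, ∑ v, ad G u v * (E2 G + 2) := by
    apply Finset.sum_le_sum
    intro u _
    apply Finset.sum_le_sum
    intro v _
    by_cases h : G.Adj u v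
    · exact mul_le_mul_of_nonneg_left (dg_add_le G u v h) (ad_nonneg G u v)
    · have : ad G u v = 0 := by unfold ad; simp [h]
      rw [this]; simp
  have h3 : ∑ u, ∑ v, ad G u v * (2 * (dg G u + dg G v)) = 4 * S2 G := by
    have : ∑ u, ∑ v, ad G u v * (2 * (dg G u + dg G v)) =
        2 * ∑ u, ∑ v, ad G u v * (dg G u + dg G v) := by
      rw [Finset.mul_sum]
      refine Finset.sum_congr rfl fun u _ => ?_
      rw [Finset.mul_sum]
      refine Finset.sum_congr rfl fun v _ => ?_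
      ring
    rw [this, ← h1]; ring
  have h4 : ∑ u, ∑ v, ad G u v * (E2 G + 2) = E2 G * (E2 G + 2) := by
    simp only [← Finset.sum_mul]
    rfl
  rw [h3, h4] at h2
  nlinarith

end counts

section star
variable {V : Type} [Fintype V] (G : SimpleGraph V) (x : V)

/-- Remove all edges at `x`. -/
def del {V : Type} (G : SimpleGraph V) (x : V) : SimpleGraph V where
  Adj u v := G.Adj u v ∧ u ≠ x ∧ v ≠ x
  symm := ⟨fun _ _ h => ⟨h.1.symm, h.2.2, h.2.1⟩⟩
  loopless := ⟨fun _ h => h.1.ne rfl⟩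

lemma ad_del_left (v : V) : ad (del G x) x v = 0 := by
  unfold ad del; simp

lemma ad_del_right (v : V) : ad (del G x) v x = 0 := by
  rw [ad_symm, ad_del_left]

lemma ad_del_ne (u v : V) (hu : u ≠ x) (hv : v ≠ x) : ad (del G x) u v = ad G u v := by
  have h : (del G x).Adj u v ↔ G.Adj u v := ⟨fun h => h.1, fun h => ⟨h, hu, hv⟩⟩
  unfold ad
  by_cases h' : G.Adj u v
  · rw [if_pos h', if_pos (h.mpr h')]
  · rw [if_neg h', if_neg (fun h'' => h' (h.mp h''))]

/-- Number of edges of `G - x` with exactly one end in the neighbourhood of `x`. -/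
noncomputable def crossN : ℤ :=
  ∑ u, ∑ v, ad G x u * (1 - ad G x v) * ad (del G x) u v

lemma ad_decomp [DecidableEq V] (u v : V) : ad G u v = ad (del G x) u v +
    (if u = x then ad G x v else 0) + (if v = x then ad G x u else 0) := by
  by_cases hu : u = x
  · subst hu
    by_cases hv : v = u
    · subst hv; simp [ad_self]
    · rw [ad_del_left]; simp [hv]
  · by_cases hv : v = x
    · subst hv
      rw [ad_del_right, ad_symm]; simp [hu]
    · rw [ad_del_ne G x u v hu hv]; simp [hu, hv]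

lemma E2_decomp : E2 G = E2 (del G x) + 2 * dg G x := by
  classical
  have h0 : E2 G = ∑ u, ∑ v, (ad (del G x) u v +
    (if u = x then ad G x v else 0) + (if v = x then ad G x u else 0)) := by
    unfold E2
    exact Finset.sum_congr rfl fun u _ => Finset.sum_congr rfl fun v _ => ad_decomp G x u v
  rw [h0]
  unfold E2
  simp only [Finset.sum_add_distrib, Finset.sum_ite_eq', Finset.mem_univ, if_true]
  have h1 : ∑ u, ∑ v, (if u = x then ad G x v else 0) = dg G x := by
    rw [Finset.sum_comm]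
    simp [dg]
  rw [h1]
  unfold dg
  ring

lemma dg_decomp [DecidableEq V] (u : V) : dg G u = dg (del G x) u +
    (if u = x then dg G x else 0) + ad G x u := by
  have : dg G u = ∑ v, (ad (del G x) u v +
    (if u = x then ad G x v else 0) + (if v = x then ad G x u else 0)) := by
    unfold dg
    exact Finset.sum_congr rfl fun v _ => ad_decomp G x u v
  rw [this]
  simp only [Finset.sum_add_distrib, Finset.sum_ite_eq', Finset.mem_univ, if_true]
  congr 2
  split_ifs
  · rfl
  · simp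

lemma dg_del_self : dg (del G x) x = 0 := by
  unfold dg
  exact Finset.sum_eq_zero fun v _ => ad_del_left G x v

lemma S2_decomp : S2 G = S2 (del G x) + dg G x ^ 2 + dg G x +
    2 * ∑ u, ad G x u * dg (del G x) u := by
  classical
  have h : ∀ u, dg G u ^ 2 = dg (del G x) u ^ 2 + (if u = x then dg G x ^ 2 else 0) +
      ad G x u + 2 * (ad G x u * dg (del G x) u) := by
    intro u
    rw [dg_decomp G x u]
    by_cases hu : u = x
    · subst hu
      rw [dg_del_self, ad_self]; simp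
    · simp only [hu, if_false, add_zero]
      have := ad_sq G x u
      ring_nf
      nlinarith
  unfold S2
  rw [Finset.sum_congr rfl fun u _ => h u]
  simp only [Finset.sum_add_distrib, Finset.sum_ite_eq', Finset.mem_univ, if_true,
    ← Finset.mul_sum _ _ (2 : ℤ)]
  rfl

lemma Tr_decomp : Tr G = Tr (del G x) +
    3 * ∑ u, ∑ v, ad G x u * ad G x v * ad (del G x) u v := by
  classical
  set Y := ∑ u, ∑ v, ad G x u * ad G x v * ad (del G x) u v with hY
  have h : ∀ u v w, ad G u v * ad G v w * ad G u w =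
      ad (del G x) u v * ad (del G x) v w * ad (del G x) u w +
      (if u = x then ad G x v * ad G x w * ad (del G x) v w else 0) +
      (if v = x then ad G x u * ad G x w * ad (del G x) u w else 0) +
      (if w = x then ad G x u * ad G x v * ad (del G x) u v else 0) := by
    intro u v w
    by_cases hu : u = x
    · subst hu
      by_cases hv : v = u
      · subst hv; simp [ad_self, ad_del_left]
      · by_cases hw : w = u
        · subst hw; simp [ad_self, ad_del_left]
        · rw [ad_del_left, ad_del_left, ad_del_ne G u v w hv hw]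
          simp [hv, hw]; ring
    · by_cases hv : v = x
      · subst hv
        by_cases hw : w = v
        · subst hw; simp [ad_self, ad_del_right, hu]
        · rw [ad_del_left, ad_del_right, ad_del_ne G v u w hu hw, ad_symm G u v]
          simp [hu, hw]
      · by_cases hw : w = x
        · subst hw
          rw [ad_del_right, ad_del_ne G w u v hu hv, ad_symm G v w, ad_symm G u w]
          simp [hu, hv]; ring
        · rw [ad_del_ne G x u v hu hv, ad_del_ne G x v w hv hw, ad_del_ne G x u w hu hw]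
          simp [hu, hv, hw]
  unfold Tr
  simp_rw [h]
  simp only [Finset.sum_add_distrib]
  have k1 : ∑ u, ∑ v, ∑ w, (if u = x then ad G x v * ad G x w * ad (del G x) v w else 0) = Y := by
    have : ∀ u, ∑ v, ∑ w, (if u = x then ad G x v * ad G x w * ad (del G x) v w else 0) =
        if u = x then Y else 0 := by
      intro u
      split_ifs
      · rfl
      · simp
    simp_rw [this]
    simp
  have k2 : ∑ u, ∑ v, ∑ w, (if v = x then ad G x u * ad G x w * ad (del G x) u w else 0) = Y := by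
    refine Finset.sum_congr rfl fun u _ => ?_
    have : ∀ v, ∑ w, (if v = x then ad G x u * ad G x w * ad (del G x) u w else 0) =
        if v = x then ∑ w, ad G x u * ad G x w * ad (del G x) u w else 0 := by
      intro v
      split_ifs
      · rfl
      · simp
    simp_rw [this]
    simp
  have k3 : ∑ u, ∑ v, ∑ w, (if w = x then ad G x u * ad G x v * ad (del G x) u v else 0) = Y := by
    simp [hY]
  rw [k1, k2, k3]
  ring

/-- The star formula. -/
lemma T6_star : T6 G = T6 (del G x) +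
    6 * (dg G x * ((Fintype.card V : ℤ) - 1 - dg G x) - 2 * crossN G x) := by
  rw [T6_formula, T6_formula, E2_decomp G x, S2_decomp G x, Tr_decomp G x]
  have hc : crossN G x = ∑ u, ad G x u * dg (del G x) u -
      ∑ u, ∑ v, ad G x u * ad G x v * ad (del G x) u v := by
    unfold crossN dg
    rw [← Finset.sum_sub_distrib]
    refine Finset.sum_congr rfl fun u _ => ?_
    rw [Finset.mul_sum, ← Finset.sum_sub_distrib]
    refine Finset.sum_congr rfl fun v _ => ?_
    ring
  rw [hc]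
  ring

lemma crossN_nonneg : 0 ≤ crossN G x := by
  refine Finset.sum_nonneg fun u _ => Finset.sum_nonneg fun v _ => ?_
  have h1 := ad_nonneg G x u
  have h2 := ad_le_one G x v
  have h3 := ad_nonneg (del G x) u v
  exact mul_nonneg (mul_nonneg h1 (by linarith)) h3

lemma crossN_le : 2 * crossN G x ≤ E2 (del G x) := by
  have h1 : crossN G x = ∑ u, ∑ v, ad G x v * (1 - ad G x u) * ad (del G x) u v := by
    unfold crossN
    rw [Finset.sum_comm]
    refine Finset.sum_congr rfl fun u _ => Finset.sum_congr rfl fun v _ => ?_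
    rw [ad_symm (del G x) v u]
  have h2 : 2 * crossN G x = ∑ u, ∑ v, (ad G x u * (1 - ad G x v) +
      ad G x v * (1 - ad G x u)) * ad (del G x) u v := by
    simp only [add_mul, Finset.sum_add_distrib]
    rw [← h1]
    unfold crossN
    ring
  rw [h2]
  unfold E2
  apply Finset.sum_le_sum
  intro u _
  apply Finset.sum_le_sum
  intro v _
  rcases ad_zero_or G x u with h | h <;> rcases ad_zero_or G x v with h' | h' <;>
    rw [h, h'] <;> have := ad_nonneg (del G x) u v <;> linarith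

/-- Bounds for `T6` in terms of the number of edges. -/
lemma T6_le : T6 G ≤ 3 * E2 G * ((Fintype.card V : ℤ) - 2) := by
  rw [T6_formula]
  have h1 := S2_ge G
  have h2 := Tr_nonneg G
  nlinarith

lemma T6_ge : 6 * E2 G * (Fintype.card V : ℤ) - 6 * E2 G - 3 * E2 G ^ 2 ≤ 2 * T6 G := by
  rw [T6_formula]
  have h1 := S2_le G
  have h2 := Tr_nonneg G
  nlinarith

end star

section more
variable {V : Type} [Fintype V] (G : SimpleGraph V)

lemma E2_even : ∃ e : ℕ, E2 G = 2 * (e : ℤ) := by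
  classical
  refine ⟨G.edgeFinset.card, ?_⟩
  have h := G.sum_degrees_eq_twice_card_edges
  have h2 : ∀ u, dg G u = (G.degree u : ℤ) := by
    intro u
    unfold dg ad
    rw [Finset.sum_boole, ← SimpleGraph.card_neighborFinset_eq_degree]
    congr 2
    ext v
    simp
  rw [E2_eq, Finset.sum_congr rfl fun u _ => h2 u]
  exact_mod_cast h

lemma parity (e : ℤ) (he : E2 G = 2 * e) :
    (2 : ℤ) ∣ (frustratedCount G : ℤ) - (Fintype.card V : ℤ) * e := by
  have h1 := T6_eq_count G
  have h2 := T6_formula G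
  have h3 : (2 : ℤ) ∣ S2 G - E2 G := by
    unfold S2
    rw [E2_eq, ← Finset.sum_sub_distrib]
    apply Finset.dvd_sum
    intro u _
    have : dg G u ^ 2 - dg G u = dg G u * (dg G u - 1) := by ring
    rw [this]
    have := Int.even_mul_pred_self (dg G u)
    exact this.two_dvd
  obtain ⟨s, hs⟩ := h3
  set N : ℤ := (Fintype.card V : ℤ) * e with hN
  have h4 : 3 * (Fintype.card V : ℤ) * E2 G = 6 * N := by rw [he, hN]; ring
  rw [h1, h4] at h2
  omega

/-- Switching so that `x` becomes isolated. -/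
def sw {V : Type} (G : SimpleGraph V) (x : V) : SimpleGraph V where
  Adj u v := t3 G x u v = 1
  symm := ⟨fun u v h => by rw [← h, t3_rot G x u v, t3_rot G u v x, t3_swap G v x u, t3_rot G x v u, t3_swap G v u x, t3_rot G u v x, t3_rot G v x u]⟩
  loopless := ⟨fun u h => by rw [t3_self'] at h; exact absurd h (by norm_num)⟩

lemma ad_sw (x u v : V) : ad (sw G x) u v = t3 G x u v := by
  unfold ad
  rcases t3_zero_or G x u v with h | h
  · have : ¬ (sw G x).Adj u v := by
      intro h'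
      have h'' : t3 G x u v = 1 := h'
      omega
    rw [if_neg this, h]
  · have : (sw G x).Adj u v := h
    rw [if_pos this, h]

lemma T6_sw (x : V) : T6 (sw G x) = T6 G := by
  unfold T6
  refine Finset.sum_congr rfl fun u _ => Finset.sum_congr rfl fun v _ =>
    Finset.sum_congr rfl fun w _ => ?_
  rw [← t3_cocycle G x u v w]
  rw [t3]
  simp only [ad_sw]

lemma exists_sw [Nonempty V] : ∃ H : SimpleGraph V, T6 H = T6 G ∧
    (Fintype.card V : ℤ) * E2 H ≤ T6 G := by
  by_contra hcon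
  push Not at hcon
  have h1 : ∀ x, T6 G < (Fintype.card V : ℤ) * E2 (sw G x) := fun x =>
    hcon (sw G x) (T6_sw G x)
  have h2 : ∑ _x : V, T6 G < ∑ x, (Fintype.card V : ℤ) * E2 (sw G x) :=
    Finset.sum_lt_sum_of_nonempty Finset.univ_nonempty fun x _ => h1 x
  rw [← Finset.mul_sum, Finset.sum_const, nsmul_eq_mul, Finset.card_univ] at h2
  have h3 : ∑ x, E2 (sw G x) = T6 G := by
    unfold E2 T6
    simp only [ad_sw]
  rw [h3] at h2
  exact lt_irrefl _ h2

lemma dg_le_card (u : V) : dg G u ≤ Fintype.card V := by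
  unfold dg
  calc ∑ v, ad G u v ≤ ∑ _v : V, (1 : ℤ) := Finset.sum_le_sum fun v _ => ad_le_one G u v
    _ = _ := by simp

/-- The gap lemma: the value `F = m n - v` is not attained. -/
lemma gap [Nonempty V] (n m k c v F : ℤ) (hn : (Fintype.card V : ℤ) = n)
    (hc : c = 1 ∨ (c = 2 ∧ ∃ j, n = 2 * j + 1)) (hk : 0 ≤ k) (hkm : k ≤ m)
    (hv : v = (m - k) * (m - k + 1) + (k + 1) * (k + 2)) (hF : F = m * n - v)
    (h1 : (k + 1) * (k + 2) < 2 * m) (h2 : v < c * n + 2 * m - 2 * c)
    (h3 : (m + c) * (m + c + 1) < c * n + v) (h4 : 2 * m * k < v) (h5 : 4 * m + c ≤ n - 1) :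
    (frustratedCount G : ℤ) ≠ F := by
  intro hG
  have hm : 0 < m := by nlinarith
  obtain ⟨H, hH1, hH2⟩ := exists_sw G
  have hT : T6 H = 6 * F := by rw [hH1, T6_eq_count, hG]
  have hcH : (frustratedCount H : ℤ) = F := by
    have := T6_eq_count H
    omega
  obtain ⟨e, he⟩ := E2_even H
  have hpar := parity H e he
  rw [hn, hcH] at hpar
  rw [hn, ← hH1, hT, he] at hH2
  have hnpos : 0 < n := by rcases hc with rfl | ⟨rfl, _⟩ <;> linarith
  -- e ≤ 3 m
  have hv0 : 0 ≤ v := by
    rw [hv]; nlinarith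
  have he3 : (e : ℤ) ≤ 3 * m := by
    have : n * (2 * (e : ℤ)) ≤ 6 * (m * n) := by
      calc n * (2 * (e : ℤ)) ≤ 6 * F := hH2
        _ ≤ 6 * (m * n) := by rw [hF]; linarith
    have h' : n * (e : ℤ) ≤ n * (3 * m) := by linarith
    exact le_of_mul_le_mul_left h' hnpos
  have hup := T6_le H
  have hlo := T6_ge H
  rw [hT, he, hn] at hup hlo
  -- F ≤ e (n - 2), F ≥ e n - e - e ^ 2
  have hup' : F ≤ e * (n - 2) := by linarith
  have hlo' : (e : ℤ) * n - e - e ^ 2 ≤ F := by nlinarith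
  -- parity: e = m or |e - m| ≥ c
  have hpar2 : (e : ℤ) = m ∨ (e : ℤ) ≤ m - c ∨ m + c ≤ e := by
    rcases hc with rfl | ⟨rfl, j, hj⟩
    · omega
    · -- v even
      have hv2 : (2 : ℤ) ∣ v := by
        rw [hv]
        exact dvd_add (Int.even_mul_succ_self (m - k)).two_dvd (by
          have := (Int.even_mul_succ_self (k + 1)).two_dvd
          rwa [show k + 1 + 1 = k + 2 by ring] at this)
      have h6 : (2 : ℤ) ∣ m * n - n * e := by
        have : m * n - n * e = (F - n * e) + v := by rw [hF]; ring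
        rw [this]
        exact dvd_add hpar hv2
      have h7 : m * n - n * e = 2 * (j * (m - e)) + (m - e) := by rw [hj]; ring
      rw [h7] at h6
      have h8 : (2 : ℤ) ∣ m - e := (Int.dvd_add_right ⟨_, rfl⟩).mp h6
      obtain ⟨q, hq⟩ := h8
      omega
  rcases hpar2 with heq | hlt | hgt
  · -- e = m
    obtain ⟨x, hx⟩ := Finite.exists_max (dg H)
    obtain ⟨k', hk'⟩ := E2_even (del H x)
    set D := dg H x with hD
    have hE := E2_decomp H x
    rw [he, hk', ← hD, heq] at hE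
    have hD0 : 0 ≤ D := dg_nonneg H x
    have hst := T6_star H x
    rw [← hD, hn, hT] at hst
    have hcr0 := crossN_nonneg H x
    have hcr1 := crossN_le H x
    have hu := T6_le (del H x)
    have hl := T6_ge (del H x)
    rw [hk', hn] at hu hl
    rw [hk'] at hcr1
    have hkk : (k' : ℤ) = m - D := by linarith
    rw [hkk] at hu hl hcr1
    -- F ≤ m n - 2 k' - D - D^2
    have b1 : F ≤ m * n - 2 * (m - D) - D - D ^ 2 := by linarith [hst, hu, hcr0]
    have b2 : m * n - (m - D) ^ 2 - 3 * (m - D) - D - D ^ 2 ≤ F := by linarith [hst, hl, hcr1]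
    by_cases hDk : k + 1 ≤ D
    · by_cases hDm : D ≤ m - k
      · -- F ≥ ... > m n - v
        have h20 := mul_nonneg (sub_nonneg.mpr hDk) (sub_nonneg.mpr hDm)
        have : D ^ 2 + D + (m - D) ^ 2 + 3 * (m - D) < v := by
          rw [hv]
          linarith [h20]
        linarith
      · push Not at hDm
        have hDm' : m - k + 1 ≤ D := hDm
        have hmk : 0 ≤ m - k := by linarith
        have : v < D ^ 2 - D + 2 * m := by
          have h9 : (m - k + 1) * (m - k) ≤ D * (D - 1) := by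
            apply mul_le_mul hDm' (by linarith) hmk hD0
          rw [hv]
          linarith [h9, h1]
        linarith
    · push Not at hDk
      have hDk' : D ≤ k := by linarith
      have hS : S2 H ≤ D * E2 H := by
        unfold S2
        rw [E2_eq, Finset.mul_sum]
        apply Finset.sum_le_sum
        intro u _
        rw [sq]
        exact mul_le_mul_of_nonneg_right (hx u) (dg_nonneg H u)
      have hf := T6_formula H
      have htr := Tr_nonneg H
      rw [hn, hT, he, heq] at hf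
      rw [he, heq] at hS
      have h10 : m * n - 2 * m * D ≤ F := by
        have e1 : 3 * n * (2 * m) = 6 * (m * n) := by ring
        have e2 : D * (2 * m) = 2 * m * D := by ring
        rw [e1] at hf
        rw [e2] at hS
        linarith
      have h11 : 2 * m * D ≤ 2 * m * k := mul_le_mul_of_nonneg_left hDk' (by linarith)
      linarith
  · -- e ≤ m - c
    have : F ≤ (m - c) * (n - 2) := hup'.trans (mul_le_mul_of_nonneg_right hlt (by
      rcases hc with rfl | ⟨rfl, _⟩ <;> linarith))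
    rw [hF] at this
    linarith [this, h2]
  · -- e ≥ m + c
    have hφ : (m + c) * n - (m + c) - (m + c) ^ 2 ≤ (e : ℤ) * n - e - e ^ 2 := by
      have h12 : 0 ≤ ((e : ℤ) - (m + c)) * (n - 1 - e - (m + c)) :=
        mul_nonneg (by linarith) (by linarith)
      linarith [h12]
    have h13 : F < (m + c) * n - (m + c) - (m + c) ^ 2 := by
      rw [hF]; linarith [h3]
    linarith

end more

section build
variable {V : Type} [Fintype V]

/-- Add all edges from `x` to `N`. -/
def addStar {V : Type} (H : SimpleGraph V) (x : V) (N : Finset V) (hx : x ∉ N) :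
    SimpleGraph V where
  Adj u v := H.Adj u v ∨ (u = x ∧ v ∈ N) ∨ (v = x ∧ u ∈ N)
  symm := ⟨fun u v h => by
    rcases h with h | h | h
    · exact Or.inl h.symm
    · exact Or.inr (Or.inr h)
    · exact Or.inr (Or.inl h)⟩
  loopless := ⟨fun u h => by
    rcases h with h | ⟨rfl, h⟩ | ⟨rfl, h⟩
    · exact h.ne rfl
    · exact hx h
    · exact hx h⟩

variable (H : SimpleGraph V) (x : V) (N : Finset V) (hx : x ∉ N)
  (hiso : ∀ v, ¬ H.Adj x v)

include hiso in
omit [Fintype V] in
lemma del_addStar : del (addStar H x N hx) x = H := by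
  ext u v
  simp only [del, addStar]
  constructor
  · rintro ⟨h | ⟨rfl, h⟩ | ⟨rfl, h⟩, h1, h2⟩
    · exact h
    · exact absurd rfl h1
    · exact absurd rfl h2
  · intro h
    refine ⟨Or.inl h, ?_, ?_⟩
    · rintro rfl; exact hiso _ h
    · rintro rfl; exact hiso _ h.symm

include hiso in
omit [Fintype V] in
lemma ad_addStar [DecidableEq V] (v : V) :
    ad (addStar H x N hx) x v = if v ∈ N then 1 else 0 := by
  unfold ad
  have h : (addStar H x N hx).Adj x v ↔ v ∈ N := by
    simp only [addStar]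
    constructor
    · rintro (h | ⟨_, h⟩ | ⟨_, h⟩)
      · exact absurd h (hiso v)
      · exact h
      · exact absurd h hx
    · intro h; exact Or.inr (Or.inl ⟨trivial, h⟩)
  by_cases hv : v ∈ N
  · rw [if_pos (h.mpr hv), if_pos hv]
  · rw [if_neg (fun h' => hv (h.mp h')), if_neg hv]

include hiso in
lemma dg_addStar : dg (addStar H x N hx) x = N.card := by
  classical
  unfold dg
  simp_rw [ad_addStar H x N hx hiso]
  simp

include hiso in
/-- Star formula for adding a star at an isolated vertex. -/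
lemma T6_addStar [DecidableEq V] (cr : ℤ)
    (hcr : ∑ u ∈ N, ∑ v, (if v ∈ N then 0 else ad H u v) = cr) :
    T6 (addStar H x N hx) = T6 H +
      6 * ((N.card : ℤ) * ((Fintype.card V : ℤ) - 1 - N.card) - 2 * cr) := by
  rw [T6_star (addStar H x N hx) x, del_addStar H x N hx hiso, dg_addStar H x N hx hiso]
  have : crossN (addStar H x N hx) x = cr := by
    unfold crossN
    rw [del_addStar H x N hx hiso, ← hcr]
    simp_rw [ad_addStar H x N hx hiso]
    have h1 : ∀ u, ∑ v, (if u ∈ N then (1 : ℤ) else 0) * (1 - if v ∈ N then (1 : ℤ) else 0) *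
        ad H u v = if u ∈ N then ∑ v, (if v ∈ N then 0 else ad H u v) else 0 := by
      intro u
      split_ifs with h
      · refine Finset.sum_congr rfl fun v _ => ?_
        split_ifs <;> simp
      · simp
    simp_rw [h1]
    rw [Finset.sum_ite_mem, Finset.univ_inter]
  rw [this]

/-- State invariant: vertices of `U` are isolated, vertices of `Z` are pendant and pairwise
non-adjacent. -/
def St {V : Type} (H : SimpleGraph V) (U Z : Finset V) : Prop :=
  (∀ u ∈ U, ∀ v, ¬ H.Adj u v) ∧ (∀ z ∈ Z, ∃ y, y ∉ Z ∧ y ∉ U ∧ ∀ v, H.Adj z v ↔ v = y) ∧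
    Disjoint U Z

lemma star_step (U Z : Finset V) (hS : St H U Z) (s : ℕ) (hs : s + 1 ≤ U.card) :
    ∃ (H' : SimpleGraph V) (U' Z' : Finset V), St H' U' Z' ∧ U'.card + (s + 1) = U.card ∧
      Z'.card = Z.card + s ∧
      T6 H' = T6 H + 6 * ((s : ℤ) * ((Fintype.card V : ℤ) - 1 - s)) := by
  classical
  obtain ⟨h1, h2, h3⟩ := hS
  obtain ⟨c, hc⟩ : U.Nonempty := by rw [← Finset.card_pos]; omega
  have hcard : (U.erase c).card = U.card - 1 := Finset.card_erase_of_mem hc
  obtain ⟨N, hN, hNs⟩ := Finset.exists_subset_card_eq (show s ≤ (U.erase c).card by omega)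
  have hcN : c ∉ N := fun h => absurd (hN h) (Finset.notMem_erase c U)
  have hNU : N ⊆ U := hN.trans (Finset.erase_subset _ _)
  refine ⟨addStar H c N hcN, (U.erase c) \ N, Z ∪ N, ⟨?_, ?_, ?_⟩, ?_, ?_, ?_⟩
  · intro u hu v hadj
    rw [Finset.mem_sdiff, Finset.mem_erase] at hu
    rcases hadj with h | ⟨rfl, h⟩ | ⟨rfl, h⟩
    · exact h1 u hu.1.2 v h
    · exact hu.1.1 rfl
    · exact hu.2 h
  · intro z hz
    rw [Finset.mem_union] at hz
    rcases hz with hz | hz
    · obtain ⟨y, hyZ, hyU, hy⟩ := h2 z hz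
      have hzU : z ∉ U := fun h => (Finset.disjoint_left.mp h3) h hz
      refine ⟨y, ?_, ?_, ?_⟩
      · rw [Finset.mem_union]
        rintro (h | h)
        · exact hyZ h
        · exact hyU (hNU h)
      · rw [Finset.mem_sdiff, Finset.mem_erase]
        rintro ⟨⟨_, h⟩, _⟩
        exact hyU h
      · intro v
        constructor
        · rintro (h | ⟨rfl, h⟩ | ⟨rfl, h⟩)
          · exact (hy v).mp h
          · exact absurd hc hzU
          · exact absurd (hNU h) hzU
        · intro h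
          exact Or.inl ((hy v).mpr h)
    · refine ⟨c, ?_, ?_, ?_⟩
      · rw [Finset.mem_union]
        rintro (h | h)
        · exact (Finset.disjoint_left.mp h3) hc h
        · exact hcN h
      · simp
      · intro v
        constructor
        · rintro (h | ⟨rfl, h⟩ | ⟨rfl, h⟩)
          · exact absurd h (h1 z (hNU hz) v)
          · exact absurd hz hcN
          · rfl
        · rintro rfl
          exact Or.inr (Or.inr ⟨rfl, hz⟩)
  · rw [Finset.disjoint_left]
    intro u hu hu'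
    rw [Finset.mem_sdiff, Finset.mem_erase] at hu
    rw [Finset.mem_union] at hu'
    rcases hu' with h | h
    · exact (Finset.disjoint_left.mp h3) hu.1.2 h
    · exact hu.2 h
  · rw [Finset.card_sdiff_of_subset hN, hcard, hNs]
    omega
  · rw [Finset.card_union_of_disjoint, hNs]
    rw [Finset.disjoint_left]
    intro z hz hz'
    exact (Finset.disjoint_left.mp h3) (hNU hz') hz
  · rw [T6_addStar H c N hcN (h1 c hc) 0, hNs]
    · ring
    · apply Finset.sum_eq_zero
      intro u hu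
      apply Finset.sum_eq_zero
      intro v _
      have : ad H u v = 0 := by
        unfold ad
        rw [if_neg (h1 u (hNU hu) v)]
      rw [this]; simp

lemma matching_steps (U Z : Finset V) (hS : St H U Z) (j : ℕ) (hj : 2 * j ≤ U.card) :
    ∃ (H' : SimpleGraph V) (U' Z' : Finset V), St H' U' Z' ∧ U'.card + 2 * j = U.card ∧
      Z'.card = Z.card + j ∧
      T6 H' = T6 H + 6 * ((j : ℤ) * ((Fintype.card V : ℤ) - 2)) := by
  induction j with
  | zero => exact ⟨H, U, Z, hS, by simp, by simp, by simp⟩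
  | succ j ih =>
    obtain ⟨H1, U1, Z1, hS1, hU1, hZ1, hT1⟩ := ih (by omega)
    obtain ⟨H2, U2, Z2, hS2, hU2, hZ2, hT2⟩ := star_step H1 U1 Z1 hS1 1 (by omega)
    refine ⟨H2, U2, Z2, hS2, by omega, by omega, ?_⟩
    rw [hT2, hT1]
    push_cast
    ring

lemma final_step (U Z : Finset V) (hS : St H U Z) (D e : ℕ) (heZ : e ≤ Z.card) (heD : e ≤ D)
    (hD : D - e + 1 ≤ U.card) :
    ∃ (H' : SimpleGraph V),
      T6 H' = T6 H + 6 * ((D : ℤ) * ((Fintype.card V : ℤ) - 1 - D) - 2 * e) := by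
  classical
  obtain ⟨h1, h2, h3⟩ := hS
  obtain ⟨c, hc⟩ : U.Nonempty := by rw [← Finset.card_pos]; omega
  have hcard : (U.erase c).card = U.card - 1 := Finset.card_erase_of_mem hc
  obtain ⟨N1, hN1, hN1c⟩ := Finset.exists_subset_card_eq (show D - e ≤ (U.erase c).card by omega)
  obtain ⟨N2, hN2, hN2c⟩ := Finset.exists_subset_card_eq heZ
  have hN1U : N1 ⊆ U := hN1.trans (Finset.erase_subset _ _)
  have hdis : Disjoint N1 N2 := Finset.disjoint_of_subset_left hN1U
    (Finset.disjoint_of_subset_right hN2 h3)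
  have hcN : c ∉ N1 ∪ N2 := by
    rw [Finset.mem_union]
    rintro (h | h)
    · exact absurd (hN1 h) (Finset.notMem_erase c U)
    · exact (Finset.disjoint_left.mp h3) hc (hN2 h)
  have hNc : (N1 ∪ N2).card = D := by
    rw [Finset.card_union_of_disjoint hdis, hN1c, hN2c]; omega
  refine ⟨addStar H c (N1 ∪ N2) hcN, ?_⟩
  rw [T6_addStar H c (N1 ∪ N2) hcN (h1 c hc) e, hNc]
  rw [Finset.sum_union hdis]
  have e1 : ∑ u ∈ N1, ∑ v, (if v ∈ N1 ∪ N2 then 0 else ad H u v) = 0 := by
    apply Finset.sum_eq_zero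
    intro u hu
    apply Finset.sum_eq_zero
    intro v _
    have : ad H u v = 0 := by
      unfold ad
      rw [if_neg (h1 u (hN1U hu) v)]
    rw [this]; simp
  have e2 : ∑ u ∈ N2, ∑ v, (if v ∈ N1 ∪ N2 then 0 else ad H u v) = (e : ℤ) := by
    have : ∀ u ∈ N2, ∑ v, (if v ∈ N1 ∪ N2 then 0 else ad H u v) = 1 := by
      intro u hu
      obtain ⟨y, hyZ, hyU, hy⟩ := h2 u (hN2 hu)
      rw [Finset.sum_eq_single y]
      · have hyN : y ∉ N1 ∪ N2 := by
          rw [Finset.mem_union]
          rintro (h | h)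
          · exact hyU (hN1U h)
          · exact hyZ (hN2 h)
        rw [if_neg hyN]
        unfold ad
        rw [if_pos ((hy y).mpr rfl)]
      · intro v _ hv
        have : ad H u v = 0 := by
          unfold ad
          rw [if_neg (fun h => hv ((hy v).mp h))]
        rw [this]; simp
      · intro h; exact absurd (Finset.mem_univ y) h
    rw [Finset.sum_congr rfl this]
    simp [hN2c]
  rw [e1, e2]; simp

/-- All the values realised on top of a base graph with enough isolated vertices. -/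
lemma build (U : Finset V) (hU : ∀ u ∈ U, ∀ v, ¬ H.Adj u v) (D s j e : ℕ) (he : e ≤ j + s)
    (heD : e ≤ D) (hsize : 2 * j + s + D + 2 ≤ U.card) :
    ∃ (H' : SimpleGraph V), (frustratedCount H' : ℤ) = frustratedCount H +
      ((D + s + j : ℕ) : ℤ) * Fintype.card V -
      (D ^ 2 + D + s ^ 2 + s + 2 * j + 2 * e : ℕ) := by
  have hS0 : St H U ∅ := ⟨hU, by simp, by simp⟩
  obtain ⟨H1, U1, Z1, hS1, hU1, hZ1, hT1⟩ := matching_steps H U ∅ hS0 j (by omega)
  obtain ⟨H2, U2, Z2, hS2, hU2, hZ2, hT2⟩ := star_step H1 U1 Z1 hS1 s (by omega)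
  rw [Finset.card_empty] at hZ1
  obtain ⟨H3, hT3⟩ := final_step H2 U2 Z2 hS2 D e (by omega) heD (by omega)
  refine ⟨H3, ?_⟩
  have h3 := T6_eq_count H3
  have h0 := T6_eq_count H
  rw [hT3, hT2, hT1, h0] at h3
  push_cast
  linarith

/-- Number-theoretic representation. -/
lemma repr (m v N : ℕ) (hv2 : Even v) (hmv : 2 * m ≤ v) (hvN : v < N + 2 * m)
    (hcond : ∀ D, D ≤ m → D * D < N + D → 2 * m ≤ (m - D) * (m - D + 3)) (hm : 0 < m) :
    ∃ D s j e : ℕ, D + s + j = m ∧ e ≤ j + s ∧ e ≤ D ∧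
      v = D ^ 2 + D + s ^ 2 + s + 2 * j + 2 * e := by
  -- D maximal with D * D - D + 2 m ≤ v
  have hex : ∃ D, D ≤ m ∧ D * D + 2 * m ≤ v + D ∧
      ∀ D', D < D' → D' ≤ m → v + D' < D' * D' + 2 * m := by
    have hne : (Finset.filter (fun D => D * D + 2 * m ≤ v + D) (Finset.range (m + 1))).Nonempty :=
      ⟨0, by simp [hmv]⟩
    obtain ⟨D, hD, hmax⟩ := Finset.exists_max_image _ id hne
    rw [Finset.mem_filter, Finset.mem_range] at hD
    refine ⟨D, by omega, hD.2, ?_⟩
    intro D' hD' hD'm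
    by_contra hcon
    push Not at hcon
    have := hmax D' (by rw [Finset.mem_filter, Finset.mem_range]; exact ⟨by omega, hcon⟩)
    simp only [id] at this
    omega
  obtain ⟨D, hDm, hD1, hDmax⟩ := hex
  have hDN : D * D < N + D := by omega
  have hk := hcond D hDm hDN
  have hDlt : D < m := by
    rcases Nat.lt_or_ge D m with h | h
    · exact h
    · have : D = m := le_antisymm hDm h
      subst this
      simp at hk
      omega
  have hD2 := hDmax (D + 1) (by omega) (by omega)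
  obtain ⟨k, hkdef⟩ : ∃ k, m = D + k := ⟨m - D, by omega⟩
  have hmD : m - D = k := by omega
  rw [hmD] at hk
  -- w
  obtain ⟨w, hw⟩ : ∃ w, v + D = D * D + 2 * m + w := ⟨v + D - (D * D + 2 * m), by omega⟩
  have hwlt : w < 2 * D := by
    have : (D + 1) * (D + 1) = D * D + 2 * D + 1 := by ring
    omega
  have hweven : Even w := by
    have h1 : Even (D * D + D) := by
      rw [show D * D + D = D * (D + 1) by ring]
      exact Nat.even_mul_succ_self D
    rw [Nat.even_iff] at *
    omega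
  -- s maximal with s * s - s ≤ w
  have hexs : ∃ s, s * s ≤ w + s ∧ w + (s + 1) < (s + 1) * (s + 1) := by
    have hex2 : ∃ s, w + (s + 1) < (s + 1) * (s + 1) := ⟨w + 1, by nlinarith⟩
    classical
    refine ⟨Nat.find hex2, ?_, Nat.find_spec hex2⟩
    rcases Nat.eq_zero_or_pos (Nat.find hex2) with h0 | hpos
    · rw [h0]; simp
    · have := Nat.find_min hex2 (m := Nat.find hex2 - 1) (by omega)
      push Not at this
      rw [Nat.sub_add_cancel hpos] at this
      exact this
  obtain ⟨s, hs1, hs2⟩ := hexs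
  obtain ⟨w2, hw2⟩ : ∃ w2, w + s = s * s + w2 := ⟨w + s - s * s, by omega⟩
  have hw2lt : w2 < 2 * s := by
    have : (s + 1) * (s + 1) = s * s + 2 * s + 1 := by ring
    omega
  have hw2even : Even w2 := by
    have h1 : Even (s * s + s) := by
      rw [show s * s + s = s * (s + 1) by ring]
      exact Nat.even_mul_succ_self s
    rw [Nat.even_iff] at *
    omega
  obtain ⟨e, he⟩ := hw2even
  have hsk : s ≤ k := by
    by_contra hcon
    push Not at hcon
    have h1 : k * s ≤ w := by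
      have h2 : k * s + s ≤ s * s := by
        calc k * s + s = (k + 1) * s := by ring
          _ ≤ s * s := Nat.mul_le_mul_right s hcon
      omega
    have h3 : k * (k + 1) ≤ k * s := Nat.mul_le_mul_left k hcon
    have h4 : k * (k + 3) = k * (k + 1) + 2 * k := by ring
    omega
  have hsD : w ≤ 2 * D := hwlt.le
  refine ⟨D, s, k - s, e, by omega, by omega, ?_, ?_⟩
  · -- e ≤ D
    by_contra hcon
    push Not at hcon
    have : w2 ≤ w := by
      have : s ≤ s * s := Nat.le_mul_self s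
      omega
    omega
  · have e1 : D ^ 2 = D * D := by ring
    have e2 : s ^ 2 = s * s := by ring
    rw [e1, e2]
    omega

end build

section base
variable {V : Type} [Fintype V]

lemma T6_add_edge (G G' : SimpleGraph V) (x y : V)
    (h : ∀ u v, ¬ ((u = x ∧ v = y) ∨ (u = y ∧ v = x)) → (G'.Adj u v ↔ G.Adj u v)) :
    T6 G' ≤ T6 G + 6 * (Fintype.card V : ℤ) := by
  classical
  let I : V → V → ℤ := fun u v => if (u = x ∧ v = y) ∨ (u = y ∧ v = x) then 1 else 0
  have hI0 : ∀ u v, 0 ≤ I u v := by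
    intro u v; simp only [I]; split_ifs <;> norm_num
  have hI : ∀ u v, I u v = 0 → ad G' u v = ad G u v := by
    intro u v h0
    simp only [I] at h0
    have h1 : ¬ ((u = x ∧ v = y) ∨ (u = y ∧ v = x)) := by
      intro h2
      rw [if_pos h2] at h0
      exact one_ne_zero h0
    have := h u v h1
    unfold ad
    by_cases h3 : G.Adj u v
    · rw [if_pos h3, if_pos (this.mpr h3)]
    · rw [if_neg h3, if_neg (fun h4 => h3 (this.mp h4))]
  have hI1 : ∀ u v, I u v = 0 ∨ I u v = 1 := by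
    intro u v; simp only [I]; split_ifs <;> simp
  have hpt : ∀ u v w, t3 G' u v w ≤ t3 G u v w + (I u v + I v w + I u w) := by
    intro u v w
    have b1 : t3 G' u v w ≤ 1 := by rcases t3_zero_or G' u v w with h | h <;> rw [h] <;> norm_num
    have b2 : 0 ≤ t3 G u v w := by rcases t3_zero_or G u v w with h | h <;> rw [h] <;> norm_num
    have c1 := hI0 u v
    have c2 := hI0 v w
    have c3 := hI0 u w
    rcases hI1 u v with e1 | e1 <;> rcases hI1 v w with e2 | e2 <;>
      rcases hI1 u w with e3 | e3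
    · have : t3 G' u v w = t3 G u v w := by
        unfold t3
        rw [hI u v e1, hI v w e2, hI u w e3]
      linarith
    all_goals linarith
  have hIs : ∑ u, ∑ v, I u v ≤ 2 := by
    have h1 : ∀ u v, I u v ≤ (if u = x then (if v = y then 1 else 0) else 0) +
        (if u = y then (if v = x then 1 else 0) else 0) := by
      intro u v
      simp only [I]
      by_cases h1 : u = x <;> by_cases h2 : v = y <;> by_cases h3 : u = y <;>
        by_cases h4 : v = x <;> simp only [h1, h2, h3, h4, if_true, if_false, true_and, false_and,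
          and_true, and_false, or_true, true_or, or_self, and_self] <;>
          (try split_ifs) <;> norm_num
    calc ∑ u, ∑ v, I u v ≤ ∑ u, ∑ v, ((if u = x then (if v = y then 1 else 0) else 0) +
        (if u = y then (if v = x then 1 else 0) else 0) : ℤ) :=
          Finset.sum_le_sum fun u _ => Finset.sum_le_sum fun v _ => h1 u v
      _ = 2 := by
        simp only [Finset.sum_add_distrib]
        have e1 : ∑ u : V, ∑ v : V, (if u = x then (if v = y then (1 : ℤ) else 0) else 0) = 1 := by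
          have : ∀ u : V, ∑ v : V, (if u = x then (if v = y then (1 : ℤ) else 0) else 0) =
              if u = x then 1 else 0 := by
            intro u
            split_ifs <;> simp
          simp_rw [this]; simp
        have e2 : ∑ u : V, ∑ v : V, (if u = y then (if v = x then (1 : ℤ) else 0) else 0) = 1 := by
          have : ∀ u : V, ∑ v : V, (if u = y then (if v = x then (1 : ℤ) else 0) else 0) =
              if u = y then 1 else 0 := by
            intro u
            split_ifs <;> simp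
          simp_rw [this]; simp
        rw [e1, e2]; norm_num
  have hsum : T6 G' ≤ ∑ u, ∑ v, ∑ w, (t3 G u v w + (I u v + I v w + I u w)) :=
    Finset.sum_le_sum fun u _ => Finset.sum_le_sum fun v _ => Finset.sum_le_sum fun w _ => hpt u v w
  simp only [Finset.sum_add_distrib] at hsum
  have k1 : ∑ u, ∑ v, ∑ _w : V, I u v = (Fintype.card V : ℤ) * ∑ u, ∑ v, I u v := by
    simp only [Finset.sum_const, Finset.card_univ, nsmul_eq_mul, Finset.mul_sum]
  have k2 : ∑ _u : V, ∑ v, ∑ w, I v w = (Fintype.card V : ℤ) * ∑ u, ∑ v, I u v := by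
    simp only [Finset.sum_const, Finset.card_univ, nsmul_eq_mul]
  have k3 : ∑ u, ∑ _v : V, ∑ w, I u w = (Fintype.card V : ℤ) * ∑ u, ∑ v, I u v := by
    simp only [Finset.sum_const, Finset.card_univ, nsmul_eq_mul, Finset.mul_sum]
  rw [k1, k2, k3] at hsum
  have hn : (0 : ℤ) ≤ Fintype.card V := by positivity
  have := mul_le_mul_of_nonneg_left hIs hn
  unfold T6 at hsum ⊢
  linarith

/-- The graph with edge set given by the pairs in `S`. -/
lemma count_bot : frustratedCount (⊥ : SimpleGraph V) = 0 := by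
  have h := T6_eq_count (⊥ : SimpleGraph V)
  have h2 : T6 (⊥ : SimpleGraph V) = 0 := by
    unfold T6 t3 ad
    simp
  rw [h2] at h
  omega

lemma window (G : SimpleGraph V) (R : Finset V) (hR : ∀ u v, G.Adj u v → u ∈ R ∧ v ∈ R)
    (t : ℕ) (ht : 0 < t) (htG : t ≤ frustratedCount G) :
    ∃ B : SimpleGraph V, (∀ u v, B.Adj u v → u ∈ R ∧ v ∈ R) ∧ t ≤ frustratedCount B ∧
      frustratedCount B ≤ t + Fintype.card V := by
  classical
  by_contra hcon
  push Not at hcon
  have key : ∀ S : Finset (Sym2 V), (S : Set (Sym2 V)) ⊆ G.edgeSet →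
      frustratedCount (SimpleGraph.fromEdgeSet (S : Set (Sym2 V))) < t := by
    intro S
    induction S using Finset.induction_on with
    | empty =>
      intro _
      have : SimpleGraph.fromEdgeSet (((∅ : Finset (Sym2 V)) : Set (Sym2 V))) = ⊥ := by simp
      rw [this, count_bot]
      exact ht
    | insert e S heS ih =>
      intro hS
      have hS' : (S : Set (Sym2 V)) ⊆ G.edgeSet :=
        fun f hf => hS (by rw [Finset.coe_insert]; exact Set.mem_insert_of_mem _ hf)
      have h1 := ih hS'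
      induction e using Sym2.ind with
      | _ x y =>
        have h2 := T6_add_edge (SimpleGraph.fromEdgeSet (S : Set (Sym2 V)))
          (SimpleGraph.fromEdgeSet ((insert s(x, y) S : Finset (Sym2 V)) : Set (Sym2 V))) x y (by
            intro u v huv
            have hne : s(u, v) ≠ s(x, y) := by
              intro h
              rw [Sym2.eq_iff] at h
              exact huv h
            simp only [SimpleGraph.fromEdgeSet_adj, Finset.coe_insert, Set.mem_insert_iff, hne,
              false_or])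
        rw [T6_eq_count, T6_eq_count] at h2
        by_contra hge
        push Not at hge
        have h3 := hcon (SimpleGraph.fromEdgeSet
          ((insert s(x, y) S : Finset (Sym2 V)) : Set (Sym2 V))) (by
            intro u v huv
            rw [SimpleGraph.fromEdgeSet_adj] at huv
            exact hR u v (hS huv.1)) hge
        omega
  have h1 := key G.edgeFinset (by simp)
  have h2 : SimpleGraph.fromEdgeSet ((G.edgeFinset : Finset (Sym2 V)) : Set (Sym2 V)) = G := by
    rw [SimpleGraph.coe_edgeFinset, SimpleGraph.fromEdgeSet_edgeSet]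
  rw [h2] at h1
  omega

/-- Complete graph on `R`. -/
def KR {V : Type} (R : Finset V) : SimpleGraph V where
  Adj u v := u ≠ v ∧ u ∈ R ∧ v ∈ R
  symm := ⟨fun _ _ h => ⟨h.1.symm, h.2.2, h.2.1⟩⟩
  loopless := ⟨fun _ h => h.1 rfl⟩

lemma count_KR (R : Finset V) : R.card.choose 3 ≤ frustratedCount (KR R) := by
  classical
  unfold frustratedCount
  rw [← Finset.card_powersetCard, ← Set.ncard_coe_finset]
  apply Set.ncard_le_ncard
  · intro s hs
    rw [Finset.mem_coe, Finset.mem_powersetCard] at hs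
    obtain ⟨hsR, hs3⟩ := hs
    refine ⟨hs3, ?_⟩
    obtain ⟨x, y, z, hxy, hxz, hyz, rfl⟩ := Finset.card_eq_three.mp hs3
    rw [odd_iff (KR R) x y z hxy hxz hyz]
    have hx : x ∈ R := hsR (by simp)
    have hy : y ∈ R := hsR (by simp)
    have hz : z ∈ R := hsR (by simp)
    have a1 : ad (KR R) x y = 1 := by unfold ad; rw [if_pos ⟨hxy, hx, hy⟩]
    have a2 : ad (KR R) y z = 1 := by unfold ad; rw [if_pos ⟨hyz, hy, hz⟩]
    have a3 : ad (KR R) x z = 1 := by unfold ad; rw [if_pos ⟨hxz, hx, hz⟩]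
    unfold t3
    rw [a1, a2, a3]; norm_num
  · exact Set.toFinite _

end base

/-- The set `F_n` of numbers of frustrated triangles of graphs on `n` vertices. -/
def FSet (n : ℕ) : Set ℕ := {k | ∃ G : SimpleGraph (Fin n), frustratedCount G = k}

/-- The largest `m < C(n,3)/2` not in `F_n` (for even `n`: the largest even such `m`). -/
noncomputable def fMissing (n : ℕ) : ℕ :=
  sSup {m : ℕ | 2 * m < n.choose 3 ∧ (Even n → Even m) ∧ m ∉ FSet n}

lemma attained (n r c A : ℕ) (hr : r ≤ n)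
    (hwin : ∀ F', A ≤ F' → F' ≤ A + n → (Even n → Even F') → ∃ m v, 0 < m ∧ F' + v = m * n ∧
      Even v ∧ 2 * m ≤ v ∧ v < c * n + 2 * m ∧ 2 * m + 2 ≤ n - r ∧
      (∀ D, D ≤ m → D * D < c * n + D → 2 * m ≤ (m - D) * (m - D + 3)))
    (F : ℕ) (hAF : A ≤ F) (hF : F ≤ r.choose 3) (hpar : Even n → Even F) : F ∈ FSet n := by
  classical
  obtain ⟨R, _, hRc⟩ := Finset.exists_subset_card_eq
    (show r ≤ (Finset.univ : Finset (Fin n)).card by simpa using hr)
  -- base graph
  obtain ⟨B, hBR, F', hF'1, hF'2, hF'3, hF'4⟩ : ∃ B : SimpleGraph (Fin n),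
      (∀ u v, B.Adj u v → u ∈ R ∧ v ∈ R) ∧ ∃ F', F = frustratedCount B + F' ∧ A ≤ F' ∧
        F' ≤ A + n ∧ (Even n → Even F') := by
    by_cases h : F ≤ A + n
    · refine ⟨⊥, by simp, F, ?_, hAF, h, hpar⟩
      rw [count_bot]; omega
    · push Not at h
      obtain ⟨B, hB1, hB2, hB3⟩ := window (KR R) R (fun u v h => h.2) (F - A - n) (by omega) (by
        have := count_KR R
        rw [hRc] at this
        omega)
      rw [Fintype.card_fin] at hB3
      refine ⟨B, hB1, F - frustratedCount B, by omega, by omega, by omega, ?_⟩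
      intro hn
      obtain ⟨e, he⟩ := E2_even B
      have hp := parity B e he
      rw [Fintype.card_fin] at hp
      have hn2 : (2 : ℤ) ∣ (n : ℤ) * e := Dvd.dvd.mul_right (by exact_mod_cast hn.two_dvd) _
      have h3 : (2 : ℤ) ∣ (frustratedCount B : ℤ) := by
        have := dvd_add hp hn2
        simpa using this
      have h4 : 2 ∣ frustratedCount B := by exact_mod_cast h3
      have h5 := (hpar hn).two_dvd
      exact even_iff_two_dvd.mpr (Nat.dvd_sub h5 h4)
  obtain ⟨m, v, hm, hFv, hv2, hmv, hvN, hsz, hcond⟩ := hwin F' hF'2 hF'3 hF'4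
  obtain ⟨D, s, j, e, h1, h2, h3, h4⟩ := repr m v (c * n) hv2 hmv hvN hcond hm
  have hU : ∀ u ∈ Rᶜ, ∀ v, ¬ B.Adj u v := by
    intro u hu v huv
    exact (Finset.mem_compl.mp hu) (hBR u v huv).1
  obtain ⟨H', hH'⟩ := build B Rᶜ hU D s j e h2 h3 (by
    rw [Finset.card_compl, Fintype.card_fin, hRc]; omega)
  refine ⟨H', ?_⟩
  rw [← h4, h1, Fintype.card_fin] at hH'
  have : (F' : ℤ) + v = m * n := by exact_mod_cast hFv
  have h6 : (F : ℤ) = frustratedCount B + F' := by exact_mod_cast hF'1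
  have : (frustratedCount H' : ℤ) = F := by linarith
  exact_mod_cast this


/-- For even `n` every element of `F_n` is even, so the largest missing number below
`C(n,3)/2` has to be looked for among the even numbers. -/
lemma even_of_mem_FSet (n k : ℕ) (hn : Even n) (hk : k ∈ FSet n) : Even k := by
  obtain ⟨G, rfl⟩ := hk
  obtain ⟨e, he⟩ := E2_even G
  have hp := parity G e he
  rw [Fintype.card_fin] at hp
  have hn2 : (2 : ℤ) ∣ (n : ℤ) * e := Dvd.dvd.mul_right (by exact_mod_cast hn.two_dvd) _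
  have h3 : (2 : ℤ) ∣ (frustratedCount G : ℤ) := by
    have := dvd_add hp hn2
    simpa using this
  exact even_iff_two_dvd.mpr (by exact_mod_cast h3)

set_option maxHeartbeats 4000000 in
lemma window_real (n c A : ℕ) (b δ : ℝ) (hδ0 : 0 < δ) (hδ1 : δ ≤ 1) (hb : 100 ≤ δ * b)
    (hbn : b ^ 4 = c * n) (hc : (c = 1 ∧ Even n) ∨ (c = 2 ∧ Odd n)) (hb0' : 0 < b)
    (hA1 : (b ^ 2 + (√2 + δ) * b) * n ≤ A) (hA2 : (A : ℝ) ≤ (b ^ 2 + (√2 + 2 * δ) * b) * n)
    (F' : ℕ) (h1 : A ≤ F') (h2 : F' ≤ A + n) (h3 : Even n → Even F') :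
    ∃ m v, 0 < m ∧ F' + v = m * n ∧
      Even v ∧ 2 * m ≤ v ∧ v < c * n + 2 * m ∧ 2 * m + 2 ≤ n - (n - n / 10) ∧
      (∀ D, D ≤ m → D * D < c * n + D → 2 * m ≤ (m - D) * (m - D + 3)) := by
  have hb100 : 100 ≤ b := by nlinarith
  have hb0 : 0 < b := by linarith
  have hs1 : (1.41 : ℝ) ≤ √2 := by
    apply Real.le_sqrt_of_sq_le; norm_num
  have hs2 : √2 ≤ (1.42 : ℝ) := Real.sqrt_le_iff.mpr ⟨by norm_num, by norm_num⟩
  have hsq : √2 * √2 = 2 := Real.mul_self_sqrt (by norm_num)
  have hc1 : (1 : ℝ) ≤ c := by rcases hc with ⟨rfl, _⟩ | ⟨rfl, _⟩ <;> norm_num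
  have hc2 : (c : ℝ) ≤ 2 := by rcases hc with ⟨rfl, _⟩ | ⟨rfl, _⟩ <;> norm_num
  have hn0 : (0 : ℝ) ≤ n := by positivity
  have hnb : b ^ 4 ≤ 2 * n := by rw [hbn]; exact mul_le_mul_of_nonneg_right hc2 hn0
  have hb2 : (10000 : ℝ) ≤ b ^ 2 := by nlinarith
  have hb4 : b ^ 4 = b ^ 2 * b ^ 2 := by ring
  have hnbig : 5000 * b ^ 2 ≤ (n : ℝ) := by nlinarith
  have hnbig2 : (50000000 : ℝ) ≤ n := by nlinarith
  have hn3 : 50000000 ≤ n := by exact_mod_cast hnbig2
  -- choose m
  have hF0 : 0 < F' := by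
    have : (0 : ℝ) < A := lt_of_lt_of_le (by positivity) hA1
    have : 0 < A := by exact_mod_cast this
    omega
  obtain ⟨m, hm1, hm2, hm3⟩ : ∃ m, F' ≤ m * (n - 2) ∧ m * (n - 2) < F' + c * (n - 2) ∧
      (c = 2 → m % 2 = F' % 2) := by
    have hq := Nat.div_add_mod F' (n - 2)
    have hr := Nat.mod_lt F' (show 0 < n - 2 by omega)
    -- m1 = ceil
    obtain ⟨m1, hm11, hm12⟩ : ∃ m1, F' ≤ m1 * (n - 2) ∧ m1 * (n - 2) < F' + (n - 2) := by
      refine ⟨(F' + (n - 2) - 1) / (n - 2), ?_, ?_⟩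
      · have e1 := Nat.div_add_mod (F' + (n - 2) - 1) (n - 2)
        have e2 := Nat.mod_lt (F' + (n - 2) - 1) (show 0 < n - 2 by omega)
        rw [mul_comm] at e1
        omega
      · have e1 := Nat.div_mul_le_self (F' + (n - 2) - 1) (n - 2)
        omega
    rcases hc with ⟨rfl, _⟩ | ⟨rfl, _⟩
    · exact ⟨m1, hm11, by rw [one_mul]; exact hm12, by omega⟩
    · by_cases hp : m1 % 2 = F' % 2
      · exact ⟨m1, hm11, by omega, fun _ => hp⟩
      · refine ⟨m1 + 1, ?_, ?_, ?_⟩
        · rw [add_mul]; omega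
        · rw [add_mul]; omega
        · intro _; omega
  have hm0 : 0 < m := by
    rcases Nat.eq_zero_or_pos m with h | h
    · rw [h] at hm1; omega
    · exact h
  have hmn : m * n = m * (n - 2) + 2 * m := by
    have : n = (n - 2) + 2 := by omega
    conv_lhs => rw [this]
    ring
  have hcn : c * n = c * (n - 2) + 2 * c := by
    have : n = (n - 2) + 2 := by omega
    conv_lhs => rw [this]
    ring
  -- real bounds for m
  have hm1r : (F' : ℝ) ≤ m * n := by
    have : F' ≤ m * n := by omega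
    exact_mod_cast this
  have hFA : (A : ℝ) ≤ F' := by exact_mod_cast h1
  have hFA2 : (F' : ℝ) ≤ A + n := by exact_mod_cast h2
  have hmlow : b ^ 2 + (√2 + δ) * b ≤ m := by
    have h : (b ^ 2 + (√2 + δ) * b) * n ≤ m * n := by linarith
    exact le_of_mul_le_mul_right h (by linarith)
  have hm2r : (m : ℝ) * n ≤ F' + 2 * n + 2 * m := by
    have : m * n ≤ F' + 2 * n + 2 * m := by
      have : c ≤ 2 := by rcases hc with ⟨rfl, _⟩ | ⟨rfl, _⟩ <;> norm_num
      have : c * (n - 2) ≤ 2 * (n - 2) := Nat.mul_le_mul_right _ this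
      omega
    exact_mod_cast this
  have hδb : 2 * δ * b ≤ 2 * b := by nlinarith
  have hm2r' : (m : ℝ) * n ≤ (b ^ 2 + (√2 + 2 * δ) * b + 3) * n + 2 * m := by linarith
  have hrough : (m : ℝ) ≤ 2 * b ^ 2 := by
    -- (n - 2) m ≤ (b^2 + 4 b + 3) n
    by_contra hcon
    push Not at hcon
    have e1 : (b ^ 2 + (√2 + 2 * δ) * b + 3) ≤ 1.1 * b ^ 2 := by nlinarith
    have e2 : (b ^ 2 + (√2 + 2 * δ) * b + 3) * n ≤ 1.1 * b ^ 2 * n :=
      mul_le_mul_of_nonneg_right e1 hn0
    have e3 : (m : ℝ) * n ≤ 1.1 * b ^ 2 * n + 2 * m := by linarith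
    have e4 : (m : ℝ) * (n - 2) ≤ 1.1 * b ^ 2 * n := by linarith
    have e5 : 2 * b ^ 2 * (n - 2) < (m : ℝ) * (n - 2) :=
      mul_lt_mul_of_pos_right hcon (by linarith)
    nlinarith
  have hmup : (m : ℝ) ≤ b ^ 2 + (√2 + 2 * δ) * b + 4 := by
    have e1 : (2 : ℝ) * m ≤ n := by linarith
    have e2 : (m : ℝ) * n ≤ (b ^ 2 + (√2 + 2 * δ) * b + 4) * n := by linarith
    exact le_of_mul_le_mul_right e2 (by linarith)
  refine ⟨m, m * n - F', hm0, ?_, ?_, ?_, ?_, ?_, ?_⟩
  · omega
  · -- parity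
    rcases hc with ⟨rfl, hev⟩ | ⟨rfl, hod⟩
    · have hF2 := h3 hev
      have : Even (m * n) := hev.mul_left m
      exact (Nat.even_sub (by omega)).mpr ⟨fun _ => hF2, fun _ => this⟩
    · have hmp := hm3 rfl
      have : m * n % 2 = m % 2 := by
        rw [Nat.mul_mod, Nat.odd_iff.mp hod]; simp
      rw [Nat.even_iff]
      omega
  · omega
  · omega
  · have : (20 * m + 40 : ℝ) ≤ n := by linarith
    have : 20 * m + 40 ≤ n := by exact_mod_cast this
    omega
  · intro D hDm hD
    have hDr : (D : ℝ) * D < b ^ 4 + D := by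
      rw [hbn]; exact_mod_cast hD
    have hDlt : (D : ℝ) < b ^ 2 + 1 := by
      by_contra hcon
      push Not at hcon
      have e1 : (b ^ 2 + 1) * b ^ 2 ≤ (D : ℝ) * (D - 1) := by
        apply mul_le_mul hcon (by linarith) (by positivity) (by positivity)
      have e2 : (b ^ 2 + 1) * b ^ 2 = b ^ 4 + b ^ 2 := by ring
      have e3 : (D : ℝ) * (D - 1) = D * D - D := by ring
      rw [e2, e3] at e1
      linarith
    obtain ⟨k, hk⟩ : ∃ k, m = D + k := ⟨m - D, by omega⟩
    have hkr : (k : ℝ) = m - D := by rw [hk]; push_cast; ring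
    have hmD : m - D = k := by omega
    rw [hmD]
    have hklow : (√2 + δ) * b - 1 ≤ k := by rw [hkr]; linarith
    have hκ : 0 ≤ (√2 + δ) * b - 1 := by
      have : 1.41 * b ≤ (√2 + δ) * b := mul_le_mul_of_nonneg_right (by linarith) hb0.le
      linarith
    have e1 : ((√2 + δ) * b - 1) * ((√2 + δ) * b - 1 + 3) ≤ (k : ℝ) * (k + 3) :=
      mul_le_mul hklow (by linarith) (by linarith) (by positivity)
    have e2 : 2 * (m : ℝ) ≤ ((√2 + δ) * b - 1) * ((√2 + δ) * b - 1 + 3) := by
      have e3 : ((√2 + δ) * b - 1) * ((√2 + δ) * b - 1 + 3) =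
          2 * b ^ 2 + 2 * √2 * (δ * b) * b + (δ * b) ^ 2 + (√2 + δ) * b - 2 := by
        have : ((√2 + δ) * b - 1) * ((√2 + δ) * b - 1 + 3) =
          (√2 * √2) * b ^ 2 + 2 * √2 * (δ * b) * b + (δ * b) ^ 2 + (√2 + δ) * b - 2 := by ring
        rw [this, hsq]
      rw [e3]
      have e4 : 282 * b ≤ 2 * √2 * (δ * b) * b := by
        apply mul_le_mul_of_nonneg_right _ hb0.le
        have : 2 * 1.41 * (δ * b) ≤ 2 * √2 * (δ * b) :=
          mul_le_mul_of_nonneg_right (by linarith) (by linarith)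
        linarith
      have e5 : (0 : ℝ) ≤ (δ * b) ^ 2 := by positivity
      have e6 : (√2 + 2 * δ) * b ≤ 1.42 * b + 2 * b := by
        have : (√2 + 2 * δ) * b = √2 * b + 2 * δ * b := by ring
        rw [this]
        have := mul_le_mul_of_nonneg_right hs2 hb0.le
        linarith
      have e7 : 0 ≤ (√2 + δ) * b := by positivity
      linarith
    have e3 : 2 * (m : ℝ) ≤ (k : ℝ) * (k + 3) := e2.trans e1
    exact_mod_cast e3

set_option maxHeartbeats 4000000 in
lemma gap_real (n c : ℕ) (b δ : ℝ) (hδ0 : 0 < δ) (hδ1 : δ ≤ 1) (hb : 100 ≤ δ * b)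
    (hbn : b ^ 4 = c * n) (hc : (c = 1 ∧ Even n) ∨ (c = 2 ∧ Odd n)) (hb0' : 0 < b) :
    ∃ F : ℕ, 2 * F < n.choose 3 ∧ (Even n → Even F) ∧
      (b ^ 2 + (√2 - 2 * δ) * b) * n ≤ F ∧
      ∃ m k v : ℤ, 0 ≤ k ∧ k ≤ m ∧ v = (m - k) * (m - k + 1) + (k + 1) * (k + 2) ∧
        (F : ℤ) = m * n - v ∧ (k + 1) * (k + 2) < 2 * m ∧ v < c * n + 2 * m - 2 * c ∧
        (m + c) * (m + c + 1) < c * n + v ∧ 2 * m * k < v ∧ 4 * m + c ≤ (n : ℤ) - 1 := by
  have hb100 : 100 ≤ b := by nlinarith
  have hb0 : 0 < b := by linarith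
  have hs1 : (1.41 : ℝ) ≤ √2 := by
    apply Real.le_sqrt_of_sq_le; norm_num
  have hs2 : √2 ≤ (1.42 : ℝ) := Real.sqrt_le_iff.mpr ⟨by norm_num, by norm_num⟩
  have hsq : √2 * √2 = 2 := Real.mul_self_sqrt (by norm_num)
  have hc1 : (1 : ℝ) ≤ c := by rcases hc with ⟨rfl, _⟩ | ⟨rfl, _⟩ <;> norm_num
  have hc2 : (c : ℝ) ≤ 2 := by rcases hc with ⟨rfl, _⟩ | ⟨rfl, _⟩ <;> norm_num
  have hn0 : (0 : ℝ) ≤ n := by positivity
  have hnb : b ^ 4 ≤ 2 * n := by rw [hbn]; exact mul_le_mul_of_nonneg_right hc2 hn0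
  have hb2 : 100 * b ≤ b ^ 2 := by nlinarith
  have hb2' : (10000 : ℝ) ≤ b ^ 2 := by nlinarith
  have hb4 : b ^ 4 = b ^ 2 * b ^ 2 := by ring
  have hnbig : 5000 * b ^ 2 ≤ (n : ℝ) := by nlinarith
  have hnbig2 : (50000000 : ℝ) ≤ n := by nlinarith
  have hn3 : 50000000 ≤ n := by exact_mod_cast hnbig2
  have hδb : δ * b ≤ b := by nlinarith
  set m : ℤ := ⌊b ^ 2 + (√2 - δ) * b⌋ with hm
  set k : ℤ := ⌊√2 * b⌋ - 2 with hk
  have hm1 : (m : ℝ) ≤ b ^ 2 + (√2 - δ) * b := Int.floor_le _
  have hm2 : b ^ 2 + (√2 - δ) * b - 1 < m := by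
    have := Int.lt_floor_add_one (b ^ 2 + (√2 - δ) * b); linarith
  have hk1 : (k : ℝ) ≤ √2 * b - 2 := by
    rw [hk]; push_cast; have := Int.floor_le (√2 * b); linarith
  have hk2 : √2 * b - 3 < k := by
    rw [hk]; push_cast; have := Int.lt_floor_add_one (√2 * b); linarith
  have hsb1 : 1.41 * b ≤ √2 * b := mul_le_mul_of_nonneg_right hs1 hb0.le
  have hsb2 : √2 * b ≤ 1.42 * b := mul_le_mul_of_nonneg_right hs2 hb0.le
  have hk0r : (0 : ℝ) ≤ k := by linarith
  have hk0 : 0 ≤ k := by exact_mod_cast hk0r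
  have hexp : (√2 - δ) * b = √2 * b - δ * b := by ring
  rw [hexp] at hm1 hm2
  have hmk1 : (m : ℝ) - k < b ^ 2 - δ * b + 3 := by linarith
  have hmk2 : b ^ 2 - δ * b + 1 < (m : ℝ) - k := by linarith
  have hmk0 : (0 : ℝ) < (m : ℝ) - k := by linarith
  have hmk0' : 0 < m - k := by exact_mod_cast hmk0
  have hkk : ((k : ℝ) + 1) * (k + 2) ≤ 2 * b ^ 2 - √2 * b := by
    have : ((k : ℝ) + 1) * (k + 2) ≤ (√2 * b - 1) * (√2 * b) := by
      apply mul_le_mul <;> linarith
    have e : (√2 * b - 1) * (√2 * b) = (√2 * √2) * b ^ 2 - √2 * b := by ring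
    rw [e, hsq] at this
    exact this
  have ha : ((k : ℝ) + 1) * (k + 2) < 2 * m := by linarith
  set v : ℤ := (m - k) * (m - k + 1) + (k + 1) * (k + 2) with hv
  have hvr : (v : ℝ) = ((m : ℝ) - k) * ((m : ℝ) - k + 1) + ((k : ℝ) + 1) * (k + 2) := by
    rw [hv]; push_cast; ring
  have hmk3 : ((m : ℝ) - k) * ((m : ℝ) - k + 1) ≤ b ^ 4 - 100 := by
    have e1 : ((m : ℝ) - k) * ((m : ℝ) - k + 1) ≤ (b ^ 2 - 96) * (b ^ 2 - 96) := by
      apply mul_le_mul <;> linarith
    nlinarith
  have hb' : (v : ℝ) < c * n + 2 * m - 2 * c := by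
    rw [hvr, ← hbn]; linarith
  have hvlow : (0.98 : ℝ) * b ^ 4 ≤ v := by
    have e1 : (0.99 * b ^ 2) * (0.99 * b ^ 2) ≤ ((m : ℝ) - k) * ((m : ℝ) - k + 1) := by
      apply mul_le_mul <;> first | positivity | linarith
    rw [hvr]
    have e2 : (0 : ℝ) ≤ ((k : ℝ) + 1) * (k + 2) := by positivity
    nlinarith
  have hmb : (m : ℝ) ≤ 1.02 * b ^ 2 := by linarith
  have hm0r : (0 : ℝ) < m := by linarith
  have hcc : ((m : ℝ) + c) * (m + c + 1) < c * n + v := by
    have e1 : ((m : ℝ) + c) * (m + c + 1) ≤ (1.03 * b ^ 2) * (1.03 * b ^ 2) := by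
      apply mul_le_mul <;> first | positivity | linarith
    rw [← hbn]
    nlinarith
  have hd : 2 * (m : ℝ) * k < v := by
    have e1 : (m : ℝ) * k ≤ (1.02 * b ^ 2) * (1.42 * b) := by
      apply mul_le_mul <;> first | positivity | linarith
    have e2 : b ^ 2 * (100 * b) ≤ b ^ 2 * b ^ 2 := mul_le_mul_of_nonneg_left hb2 (by positivity)
    have e3 : (0 : ℝ) < b ^ 2 * b ^ 2 := by positivity
    nlinarith
  have he : 4 * (m : ℝ) + c ≤ n - 1 := by linarith
  have hv0 : (0 : ℝ) ≤ v := le_trans (by positivity) hvlow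
  have hFpos : 0 ≤ m * n - v := by
    have : (0 : ℝ) ≤ (m : ℝ) * n - v := by nlinarith
    exact_mod_cast this
  obtain ⟨F, hF⟩ := Int.eq_ofNat_of_zero_le hFpos
  have hFr : (F : ℝ) = (m : ℝ) * n - v := by
    have : ((m * n - v : ℤ) : ℝ) = ((F : ℤ) : ℝ) := by rw [hF]
    push_cast at this
    linarith
  have hv2 : (2 : ℤ) ∣ v := by
    rw [hv]
    exact dvd_add (Int.even_mul_succ_self (m - k)).two_dvd (by
      have := (Int.even_mul_succ_self (k + 1)).two_dvd
      rwa [show k + 1 + 1 = k + 2 by ring] at this)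
  refine ⟨F, ?_, ?_, ?_, m, k, v, hk0, by linarith, hv, hF.symm, ?_, ?_, ?_, ?_, ?_⟩
  · -- 2 F < C(n,3)
    have h1 : (2 * F : ℝ) < (n.choose 3 : ℕ) := by
      have h2 : (((n + 1 - 3 : ℕ) : ℝ) ^ 3) / ((Nat.factorial 3 : ℕ) : ℝ) ≤ (n.choose 3 : ℕ) :=
        Nat.pow_le_choose 3 n
      have h3 : ((n + 1 - 3 : ℕ) : ℝ) = n - 2 := by
        have : n + 1 - 3 = n - 2 := by omega
        rw [this, Nat.cast_sub (by omega)]; norm_num
      rw [h3] at h2
      have h4 : ((Nat.factorial 3 : ℕ) : ℝ) = 6 := by norm_num [Nat.factorial]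
      rw [h4] at h2
      refine lt_of_lt_of_le ?_ h2
      have h5 : (F : ℝ) ≤ (m : ℝ) * n := by linarith
      have h6 : (m : ℝ) * n ≤ 1.02 * b ^ 2 * n := mul_le_mul_of_nonneg_right hmb hn0
      have h7 : 1.02 * b ^ 2 * (n : ℝ) ≤ n * n / 100 := by nlinarith
      have h8 : (n : ℝ) * n * n / 2 ≤ (n - 2) ^ 3 := by
        have : (0.9 * n : ℝ) ≤ n - 2 := by linarith
        have : (0.9 * n : ℝ) ^ 3 ≤ (n - 2) ^ 3 := pow_le_pow_left₀ (by positivity) this 3
        nlinarith [mul_nonneg hn0 (mul_nonneg hn0 hn0)]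
      have h9 : (n : ℝ) * n / 50 < n * n * n / 12 := by
        have : 0 < (n : ℝ) * n := by positivity
        nlinarith
      linarith
    exact_mod_cast h1
  · intro hn
    have h1 : (2 : ℤ) ∣ m * n - v :=
      dvd_sub (Dvd.dvd.mul_left (by exact_mod_cast hn.two_dvd) _) hv2
    rw [hF] at h1
    exact even_iff_two_dvd.mpr (by exact_mod_cast h1)
  · rw [hFr]
    have h1 : (v : ℝ) ≤ 2 * n + 2 * m := by
      have : (c : ℝ) * n ≤ 2 * n := mul_le_mul_of_nonneg_right hc2 hn0
      linarith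
    have h2 : (b ^ 2 + (√2 * b - δ * b) - 1) * n ≤ (m : ℝ) * n :=
      mul_le_mul_of_nonneg_right hm2.le hn0
    have h3 : (100 : ℝ) * n ≤ δ * b * n := mul_le_mul_of_nonneg_right hb hn0
    have h4 : (b ^ 2 + (√2 - 2 * δ) * b) * n = (b ^ 2 + (√2 * b - δ * b) - 1) * n -
      δ * b * n + n := by ring
    rw [h4]
    linarith
  · exact_mod_cast ha
  · exact_mod_cast hb'
  · exact_mod_cast hcc
  · exact_mod_cast hd
  · have : (4 * (m : ℝ) + c) ≤ (n : ℝ) - 1 := he
    exact_mod_cast this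

lemma choose_bound (n : ℕ) (hn : 1000 ≤ n) : n.choose 3 ≤ 2 * (n - n / 10).choose 3 := by
  have hr : n - n / 10 ≤ n := by omega
  have hr2 : 9 * n ≤ 10 * (n - n / 10) := by omega
  set r := n - n / 10 with hrdef
  have h1 : ((n.choose 3 : ℕ) : ℝ) ≤ (n : ℝ) ^ 3 / ((Nat.factorial 3 : ℕ) : ℝ) :=
    Nat.choose_le_pow_div 3 n
  have h2 : (((r + 1 - 3 : ℕ) : ℝ) ^ 3) / ((Nat.factorial 3 : ℕ) : ℝ) ≤ (r.choose 3 : ℕ) :=
    Nat.pow_le_choose 3 r
  have h3 : ((r + 1 - 3 : ℕ) : ℝ) = r - 2 := by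
    have : r + 1 - 3 = r - 2 := by omega
    rw [this, Nat.cast_sub (by omega)]; norm_num
  rw [h3] at h2
  have h4 : ((Nat.factorial 3 : ℕ) : ℝ) = 6 := by norm_num [Nat.factorial]
  rw [h4] at h1 h2
  have hn' : (1000 : ℝ) ≤ n := by exact_mod_cast hn
  have hr2' : 9 * (n : ℝ) ≤ 10 * r := by exact_mod_cast hr2
  have h5 : 0.89 * (n : ℝ) ≤ r - 2 := by linarith
  have h6 : (0.89 * (n : ℝ)) ^ 3 ≤ (r - 2) ^ 3 := pow_le_pow_left₀ (by positivity) h5 3
  have h7 : (0 : ℝ) ≤ (n : ℝ) ^ 3 := by positivity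
  have h8 : (0.89 * (n : ℝ)) ^ 3 = 0.704969 * (n : ℝ) ^ 3 := by ring
  rw [h8] at h6
  have : ((n.choose 3 : ℕ) : ℝ) ≤ 2 * (r.choose 3 : ℕ) := by linarith
  exact_mod_cast this

lemma main_bound (n c : ℕ) (b δ : ℝ) (hδ0 : 0 < δ) (hδ1 : δ ≤ 1) (hb : 100 ≤ δ * b)
    (hbn : b ^ 4 = c * n) (hc : (c = 1 ∧ Even n) ∨ (c = 2 ∧ Odd n)) (hb0 : 0 < b) :
    (b ^ 2 + (√2 - 2 * δ) * b) * n ≤ fMissing n ∧
      (fMissing n : ℝ) ≤ (b ^ 2 + (√2 + 2 * δ) * b) * n := by
  have hbig : 1000 ≤ n := by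
    have hc2 : (c : ℝ) ≤ 2 := by rcases hc with ⟨rfl, _⟩ | ⟨rfl, _⟩ <;> norm_num
    have hb100 : 100 ≤ b := by nlinarith
    have h1 : (100 : ℝ) ^ 4 ≤ b ^ 4 := pow_le_pow_left₀ (by norm_num) hb100 4
    have h2 : (c : ℝ) * n ≤ 2 * n := mul_le_mul_of_nonneg_right hc2 (by positivity)
    have : (1000 : ℝ) ≤ n := by
      rw [hbn] at h1
      norm_num at h1
      linarith
    exact_mod_cast this
  obtain ⟨F, hF1, hF2, hF3, m, k, v, hk0, hkm, hv, hFm, ha, hb', hcc, hd, he⟩ :=
    gap_real n c b δ hδ0 hδ1 hb hbn hc hb0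
  set S : Set ℕ := {m : ℕ | 2 * m < n.choose 3 ∧ (Even n → Even m) ∧ m ∉ FSet n} with hS
  have hne : Nonempty (Fin n) := ⟨⟨0, by omega⟩⟩
  have hFS : F ∈ S := by
    refine ⟨hF1, hF2, ?_⟩
    rintro ⟨G, hG⟩
    refine gap G (n : ℤ) m k c v F (by simp) ?_ hk0 hkm hv hFm ha hb' hcc hd he
      (by exact_mod_cast hG)
    rcases hc with ⟨rfl, _⟩ | ⟨rfl, j, hj⟩
    · left; norm_num
    · right
      refine ⟨by norm_num, (j : ℤ), ?_⟩
      rw [hj]; push_cast; ring
  have hbdd : BddAbove S := ⟨n.choose 3, fun m hm => by have := hm.1; omega⟩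
  have hmem : fMissing n ∈ S := Nat.sSup_mem ⟨F, hFS⟩ hbdd
  constructor
  · refine hF3.trans ?_
    have : F ≤ fMissing n := le_csSup hbdd hFS
    exact_mod_cast this
  · set A : ℕ := ⌈(b ^ 2 + (√2 + δ) * b) * n⌉₊ with hA
    have hA1 : (b ^ 2 + (√2 + δ) * b) * n ≤ A := Nat.le_ceil _
    have hn1 : (1 : ℝ) ≤ n := by
      have : (1000 : ℝ) ≤ n := by exact_mod_cast hbig
      linarith
    have hA2 : (A : ℝ) ≤ (b ^ 2 + (√2 + 2 * δ) * b) * n := by
      have h1 : (A : ℝ) < (b ^ 2 + (√2 + δ) * b) * n + 1 := Nat.ceil_lt_add_one (by positivity)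
      have h2 : (b ^ 2 + (√2 + 2 * δ) * b) * n = (b ^ 2 + (√2 + δ) * b) * n + δ * b * n := by ring
      have h3 : (1 : ℝ) ≤ δ * b * n := by
        calc (1 : ℝ) ≤ 100 * 1 := by norm_num
          _ ≤ δ * b * n := mul_le_mul hb hn1 (by norm_num) (by linarith)
      rw [h2]; linarith
    refine le_trans ?_ hA2
    by_contra hcon
    push Not at hcon
    have hAf : A ≤ fMissing n := by
      have : (A : ℝ) < fMissing n := hcon
      exact_mod_cast this.le
    have h1 := hmem.1
    have h2 := choose_bound n hbig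
    exact hmem.2.2 (attained n (n - n / 10) c A (by omega)
      (fun F' q1 q2 q3 => window_real n c A b δ hδ0 hδ1 hb hbn hc hb0 hA1 hA2 F' q1 q2 q3)
      (fMissing n) hAf (by omega) hmem.2.1)

open Filter Topology in
lemma limit_aux (c : ℕ) (s : ℕ → ℕ) (hs : Tendsto s atTop atTop)
    (hc : ∀ j, (c = 1 ∧ Even (s j)) ∨ (c = 2 ∧ Odd (s j))) :
    Tendsto (fun j : ℕ => ((fMissing (s j) : ℝ) - (c : ℝ) ^ (1 / 2 : ℝ) *
      (s j : ℝ) ^ (3 / 2 : ℝ)) / (s j : ℝ) ^ (5 / 4 : ℝ)) atTop
      (𝓝 (√2 * (c : ℝ) ^ (1 / 4 : ℝ))) := by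
  have hc1 : (1 : ℝ) ≤ c := by rcases hc 0 with ⟨rfl, _⟩ | ⟨rfl, _⟩ <;> norm_num
  have hc2 : (c : ℝ) ≤ 2 := by rcases hc 0 with ⟨rfl, _⟩ | ⟨rfl, _⟩ <;> norm_num
  have hc0 : (0 : ℝ) ≤ c := by linarith
  have hcp : (0 : ℝ) < (c : ℝ) ^ (1 / 4 : ℝ) := by positivity
  have hcp2 : (c : ℝ) ^ (1 / 4 : ℝ) ≤ 2 := by
    calc (c : ℝ) ^ (1 / 4 : ℝ) ≤ (c : ℝ) ^ (1 : ℝ) :=
        Real.rpow_le_rpow_of_exponent_le hc1 (by norm_num)
      _ = c := Real.rpow_one _
      _ ≤ 2 := hc2
  rw [Metric.tendsto_atTop]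
  intro ε hε
  set δ : ℝ := min 1 (ε / 8) with hδ
  have hδ0 : 0 < δ := by rw [hδ]; positivity
  have hδ1 : δ ≤ 1 := min_le_left _ _
  have hδ2 : δ ≤ ε / 8 := min_le_right _ _
  -- n large
  obtain ⟨N, hN⟩ : ∃ N, ∀ j, N ≤ j → (100 / δ) ^ (4 : ℕ) ≤ (s j : ℝ) := by
    have h1 : Tendsto (fun j => (s j : ℝ)) atTop atTop := tendsto_natCast_atTop_atTop.comp hs
    obtain ⟨N, hN⟩ := (h1.eventually_ge_atTop ((100 / δ) ^ (4 : ℕ))).exists_forall_of_atTop
    exact ⟨N, hN⟩
  refine ⟨N, fun j hj => ?_⟩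
  set n := s j with hn
  have hnl := hN j hj
  have hδpos : (0 : ℝ) < 100 / δ := by positivity
  have hn0 : (0 : ℝ) < n := lt_of_lt_of_le (by positivity) hnl
  set b : ℝ := ((c : ℝ) * n) ^ (1 / 4 : ℝ) with hb
  have hcn : (0 : ℝ) ≤ (c : ℝ) * n := by positivity
  have hbn : b ^ 4 = c * n := by
    rw [hb, ← Real.rpow_natCast, ← Real.rpow_mul hcn]
    norm_num
  have hb0 : 0 < b := by rw [hb]; positivity
  have hb100 : 100 ≤ δ * b := by
    have h1 : 100 / δ ≤ b := by
      have h2 : (100 / δ) ^ 4 ≤ b ^ 4 := by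
        rw [hbn]
        calc (100 / δ) ^ 4 ≤ (n : ℝ) := hnl
          _ ≤ c * n := by nlinarith
      exact le_of_pow_le_pow_left₀ (by norm_num) hb0.le h2
    rw [div_le_iff₀ hδ0] at h1
    linarith
  obtain ⟨h1, h2⟩ := main_bound n c b δ hδ0 hδ1 hb100 hbn (hc j) hb0
  have hbmul : b = (c : ℝ) ^ (1 / 4 : ℝ) * (n : ℝ) ^ (1 / 4 : ℝ) := by
    rw [hb, Real.mul_rpow hc0 hn0.le]
  have hn54 : (n : ℝ) ^ (5 / 4 : ℝ) = (n : ℝ) ^ (1 / 4 : ℝ) * n := by
    rw [show (5 / 4 : ℝ) = 1 / 4 + 1 by norm_num, Real.rpow_add hn0, Real.rpow_one]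
  have hn32 : (n : ℝ) ^ (3 / 2 : ℝ) = (n : ℝ) ^ (1 / 2 : ℝ) * n := by
    rw [show (3 / 2 : ℝ) = 1 / 2 + 1 by norm_num, Real.rpow_add hn0, Real.rpow_one]
  have hb2 : b ^ 2 = (c : ℝ) ^ (1 / 2 : ℝ) * (n : ℝ) ^ (1 / 2 : ℝ) := by
    rw [hb, ← Real.rpow_natCast, ← Real.rpow_mul hcn, ← Real.mul_rpow hc0 hn0.le]
    norm_num
  have hpos : (0 : ℝ) < (n : ℝ) ^ (5 / 4 : ℝ) := by positivity
  have hX : b ^ 2 * n = (c : ℝ) ^ (1 / 2 : ℝ) * (n : ℝ) ^ (3 / 2 : ℝ) := by
    rw [hb2, hn32]; ring
  have hY : b * n = (c : ℝ) ^ (1 / 4 : ℝ) * (n : ℝ) ^ (5 / 4 : ℝ) := by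
    rw [hbmul, hn54]; ring
  rw [Real.dist_eq, abs_lt]
  have l1 : (√2 - 2 * δ) * (c : ℝ) ^ (1 / 4 : ℝ) * (n : ℝ) ^ (5 / 4 : ℝ) ≤
      (fMissing n : ℝ) - (c : ℝ) ^ (1 / 2 : ℝ) * (n : ℝ) ^ (3 / 2 : ℝ) := by
    rw [← hX, mul_assoc, ← hY]; linarith
  have l2 : (fMissing n : ℝ) - (c : ℝ) ^ (1 / 2 : ℝ) * (n : ℝ) ^ (3 / 2 : ℝ) ≤
      (√2 + 2 * δ) * (c : ℝ) ^ (1 / 4 : ℝ) * (n : ℝ) ^ (5 / 4 : ℝ) := by
    rw [← hX, mul_assoc, ← hY]; linarith
  rw [← le_div_iff₀ hpos] at l1
  rw [← div_le_iff₀ hpos] at l2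
  have l3 : 2 * δ * (c : ℝ) ^ (1 / 4 : ℝ) ≤ 2 * (ε / 8) * 2 :=
    mul_le_mul (by linarith) hcp2 hcp.le (by linarith)
  constructor
  · linarith
  · linarith

open Filter Topology in
/-- The second-order term of the largest missing frustrated-triangle count: with
`R_0(n) = f(n) - n^{3/2}` for even `n` and `R_1(n) = f(n) - √2 n^{3/2}` for odd `n` one has
`R_0(n) ~ √2 n^{5/4}` and `R_1(n) ~ 2^{3/4} n^{5/4}`. -/
theorem result :
    Tendsto (fun j : ℕ => ((fMissing (2 * j) : ℝ) - ((2 * j : ℕ) : ℝ) ^ (3 / 2 : ℝ)) /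
      ((2 * j : ℕ) : ℝ) ^ (5 / 4 : ℝ)) atTop (𝓝 √2) ∧
    Tendsto (fun j : ℕ => ((fMissing (2 * j + 1) : ℝ) - √2 *
      ((2 * j + 1 : ℕ) : ℝ) ^ (3 / 2 : ℝ)) / ((2 * j + 1 : ℕ) : ℝ) ^ (5 / 4 : ℝ)) atTop
      (𝓝 ((2 : ℝ) ^ (3 / 4 : ℝ))) := by
  constructor
  · have hs : Tendsto (fun j : ℕ => 2 * j) atTop atTop :=
      tendsto_atTop_atTop.mpr fun b => ⟨b, fun a ha => by omega⟩
    have h := limit_aux 1 (fun j => 2 * j) hs (fun j => Or.inl ⟨rfl, by simp⟩)
    simpa using h
  · have hs : Tendsto (fun j : ℕ => 2 * j + 1) atTop atTop :=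
      tendsto_atTop_atTop.mpr fun b => ⟨b, fun a ha => by omega⟩
    have h := limit_aux 2 (fun j => 2 * j + 1) hs (fun j => Or.inr ⟨rfl, by simp⟩)
    have e1 : √2 * ((2 : ℕ) : ℝ) ^ (1 / 4 : ℝ) = (2 : ℝ) ^ (3 / 4 : ℝ) := by
      rw [Real.sqrt_eq_rpow]
      push_cast
      rw [← Real.rpow_add (by norm_num)]
      norm_num
    have e2 : ((2 : ℕ) : ℝ) ^ (1 / 2 : ℝ) = √2 := by
      rw [Real.sqrt_eq_rpow]; norm_num
    rw [e1] at h
    simp only [e2] at h
    exact h

end Pool.Agent.Results.MP_31abb5_co.SecondOrder
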